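import Mathlib
import Pool.Agent.H302R2.Deg2A
import Pool.Agent.H302R2.Average

/-!
# Parts of a Heilbronn function on a product, and passage to a quotient
-/

set_option autoImplicit false

namespace Pool.Agent.Helper503_CP

open Pool.Agent.H302R2

section gen

variable {B : Type} [Group B] [Fintype B] {X : Type*} [AddCommGroup X] [Module ℂ X]

/-- the `β`-part of a vector valued function -/
noncomputable def part (Θ : B → X) (β : B →* ℂˣ) : X :=
  (Nat.card B : ℂ)⁻¹ • ∑ b : B, (((β b)⁻¹ : ℂˣ) : ℂ) • Θ b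

variable {M : Type} [Group M] [Finite M]

lemma part_heil (ev : X →ₗ[ℂ] (M → ℂ)) (Θ : B → X)
    (h : IsHeilbronn (fun p : B × M => ev (Θ p.1) p.2)) (β : B →* ℂˣ) :
    IsHeilbronn (ev (part Θ β)) := by
  classical
  have hB : (Nat.card B : ℂ) ≠ 0 := by exact_mod_cast Nat.card_pos.ne'
  have hv : ∀ y, ev (part Θ β) y
      = (Nat.card B : ℂ)⁻¹ * ∑ b : B, (((β b)⁻¹ : ℂˣ) : ℂ) * ev (Θ b) y := by
    intro y
    unfold part
    rw [map_smul, map_sum, Pi.smul_apply, Finset.sum_apply, smul_eq_mul]
    congr 1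
    refine Finset.sum_congr rfl fun b _ => ?_
    rw [map_smul, Pi.smul_apply, smul_eq_mul]
  constructor
  · intro g k
    rw [hv, hv]
    congr 1
    refine Finset.sum_congr rfl fun b _ => ?_
    congr 1
    have := h.conj (b, g) (1, k)
    simpa using this
  · intro H χ
    have : Fintype H := Fintype.ofFinite _
    obtain ⟨n, hn⟩ := h.mult_hom (E := B × H) ((MonoidHom.id B).prodMap H.subtype) (β.coprod χ)
    refine ⟨n, ?_⟩
    rw [finsum_eq_sum_of_fintype]
    rw [Fintype.sum_prod_type] at hn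
    simp only [MonoidHom.coe_prodMap, Prod.map_apply, MonoidHom.id_apply, Subgroup.coe_subtype,
      MonoidHom.coprod_apply, Nat.card_prod, Nat.cast_mul] at hn
    simp_rw [hv]
    apply mul_left_cancel₀ hB
    calc (Nat.card B : ℂ) * ∑ x : H, (Nat.card B : ℂ)⁻¹ * (∑ b : B, (((β b)⁻¹ : ℂˣ) : ℂ) *
          ev (Θ b) x) * (((χ x)⁻¹ : ℂˣ) : ℂ)
        = ∑ x : H, ∑ b : B, ev (Θ b) x * (((β b * χ x)⁻¹ : ℂˣ) : ℂ) := by
          rw [Finset.mul_sum]
          refine Finset.sum_congr rfl fun x _ => ?_
          rw [mul_assoc, ← mul_assoc, mul_inv_cancel₀ hB, one_mul, Finset.sum_mul]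
          refine Finset.sum_congr rfl fun b _ => ?_
          rw [mul_inv]; push_cast; ring
      _ = (Nat.card B : ℂ) * ((n : ℂ) * (Nat.card H : ℂ)) := by
          rw [Finset.sum_comm, hn]; ring

end gen

section comm

variable {B : Type} [CommGroup B] [Fintype B]

/-- additive characters as homomorphisms to the units -/
noncomputable def ch (ψ : AddChar (Additive B) ℂ) : B →* ℂˣ := ψ.toMonoidHom.toHomUnits

omit [Fintype B] in
lemma ch_apply (ψ : AddChar (Additive B) ℂ) (b : B) :
    ((ch ψ b : ℂˣ) : ℂ) = ψ (Additive.ofMul b) := rfl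

variable {X : Type*} [AddCommGroup X] [Module ℂ X]

lemma sum_part (Θ : B → X) (e : B) :
    Θ e = ∑ ψ : AddChar (Additive B) ℂ, ((ch ψ e : ℂˣ) : ℂ) • part Θ (ch ψ) := by
  classical
  have hB : (Nat.card B : ℂ) ≠ 0 := by exact_mod_cast Nat.card_pos.ne'
  have h1 : ∀ ψ : AddChar (Additive B) ℂ, ((ch ψ e : ℂˣ) : ℂ) • part Θ (ch ψ)
      = (Nat.card B : ℂ)⁻¹ • ∑ x : B, ψ (Additive.ofMul (x⁻¹ * e)) • Θ x := by
    intro ψ
    unfold part
    rw [smul_comm, Finset.smul_sum]
    congr 1
    refine Finset.sum_congr rfl fun x _ => ?_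
    rw [smul_smul]
    congr 1
    simp only [Units.val_inv_eq_inv_val, ch_apply, ofMul_mul, ofMul_inv,
      AddChar.map_add_eq_mul, AddChar.map_neg_eq_inv]
    ring
  rw [Finset.sum_congr rfl (fun ψ _ => h1 ψ), ← Finset.smul_sum, Finset.sum_comm]
  have h2 : ∀ x : B, ∑ ψ : AddChar (Additive B) ℂ, ψ (Additive.ofMul (x⁻¹ * e)) • Θ x
      = if x = e then (Nat.card B : ℂ) • Θ e else 0 := by
    intro x
    rw [← Finset.sum_smul]
    rw [AddChar.sum_apply_eq_ite]
    by_cases hx : x = e
    · subst hx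
      have hc : Fintype.card (Additive B) = Fintype.card B := Fintype.card_congr Additive.toMul
      simp [hc]
    · have : Additive.ofMul (x⁻¹ * e) ≠ 0 := by
        intro h
        apply hx
        have : x⁻¹ * e = 1 := h
        exact (inv_mul_eq_one.mp this)
      rw [if_neg this, if_neg hx, zero_smul]
  rw [Finset.sum_congr rfl (fun x _ => h2 x)]
  simp only [Finset.sum_ite_eq', Finset.mem_univ, if_true]
  rw [smul_smul, inv_mul_cancel₀ hB, one_smul]

lemma sum_part_one (Θ : B → X) : ∑ ψ : AddChar (Additive B) ℂ, part Θ (ch ψ) = Θ 1 := by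
  rw [sum_part Θ 1]
  exact Finset.sum_congr rfl fun ψ _ => by rw [map_one, Units.val_one, one_smul]

end comm

section push

variable {P M : Type} [Group P] [Finite P] [Group M] [Finite M]

lemma push_heil (Z : Subgroup P) [Z.Normal] [Fintype Z] (f : P × M → ℂ) (hf : IsHeilbronn f) :
    IsHeilbronn (fun p : (P ⧸ Z) × M =>
      (Nat.card Z : ℂ)⁻¹ * ∑ z : Z, f (p.1.out * z, p.2)) := by
  classical
  let π : P × M →* (P ⧸ Z) × M := (QuotientGroup.mk' Z).prodMap (MonoidHom.id M)
  have hπ : Function.Surjective π := by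
    rintro ⟨q, y⟩
    obtain ⟨x, rfl⟩ := QuotientGroup.mk_surjective q
    exact ⟨(x, y), rfl⟩
  let e := QuotientGroup.quotientKerEquivOfSurjective π hπ
  have h1 := (hf.avg π.ker).comp e.symm.toMonoidHom
  have h2 : (fun p : (P ⧸ Z) × M => avg π.ker f (e.symm.toMonoidHom p))
      = fun p : (P ⧸ Z) × M => (Nat.card Z : ℂ)⁻¹ * ∑ z : Z, f (p.1.out * z, p.2) := by
    funext p
    have h3 : e.symm.toMonoidHom p = ((p.1.out, p.2) : P × M) := by
      change e.symm p = _
      rw [MulEquiv.symm_apply_eq]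
      change p = π (p.1.out, p.2)
      apply Prod.ext
      · change p.1 = QuotientGroup.mk' Z p.1.out
        exact (QuotientGroup.out_eq' p.1).symm
      · rfl
    rw [h3, avg_mk]
    let ε : Z ≃ π.ker :=
      { toFun := fun z => ⟨((z : P), 1), by
          rw [MonoidHom.mem_ker]
          apply Prod.ext
          · exact (QuotientGroup.eq_one_iff (z : P)).mpr z.2
          · rfl⟩
        invFun := fun n => ⟨n.1.1, by
          have := congrArg Prod.fst (MonoidHom.mem_ker.mp n.2)
          exact (QuotientGroup.eq_one_iff _).mp this⟩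
        left_inv := fun z => rfl
        right_inv := fun n => by
          apply Subtype.ext
          apply Prod.ext
          · rfl
          · have := congrArg Prod.snd (MonoidHom.mem_ker.mp n.2)
            exact this.symm }
    rw [← Nat.card_congr ε, ← finsum_comp_equiv ε, finsum_eq_sum_of_fintype]
    congr 1
    refine Finset.sum_congr rfl fun z _ => ?_
    congr 1
    apply Prod.ext
    · rfl
    · exact mul_one p.2
  rw [h2] at h1
  exact h1

end push

end Pool.Agent.Helper503_CP
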