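import Mathlib
import Pool.Agent.Helper503_CP.Parts

/-!
# Gluing functionals of Heilbronn functions on a product
-/

set_option autoImplicit false

namespace Pool.Agent.Helper503_CP

open Pool.Agent.H302R2

variable {X : Type*} [AddCommGroup X] [Module ℂ X] {M : Type} [Group M] [Finite M] {ι : Type*}

/-- The functionals `T j` see at most one member of a finite family of Heilbronn functions whose sum
has the property `Q`. -/
structure Stable (ev : X →ₗ[ℂ] (M → ℂ)) (T : ι → (X →ₗ[ℂ] ℂ)) (Q : X → Prop) : Prop where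
  loc : ∀ φ φ' : X, ev φ = ev φ' → ∀ j, T j φ = T j φ'
  one : ∀ (κ : Type) [Fintype κ] (φ : κ → X), (∀ k, IsHeilbronn (ev (φ k))) → Q (∑ k, φ k) →
    ∀ j k k', k ≠ k' → T j (φ k) = 0 ∨ T j (φ k') = 0
  inh : ∀ (κ : Type) [Fintype κ] (φ : κ → X), (∀ k, IsHeilbronn (ev (φ k))) → Q (∑ k, φ k) →
    ∀ k₀, (∀ k, k ≠ k₀ → ∀ j, T j (φ k) = 0) → Q (φ k₀)

variable {ev : X →ₗ[ℂ] (M → ℂ)} {T : ι → (X →ₗ[ℂ] ℂ)} {Q : X → Prop}

lemma glue_comm (hS : Stable ev T Q) {B : Type} [CommGroup B] [Finite B] (Θ : B → X)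
    (hΘ : IsHeilbronn (fun p : B × M => ev (Θ p.1) p.2)) (hQ : Q (Θ 1)) (j : ι) :
    ∃ β : B →* ℂˣ, ∀ b, T j (Θ b) = (β b : ℂˣ) * T j (Θ 1) := by
  classical
  have : Fintype B := Fintype.ofFinite B
  have hpart := fun ψ : AddChar (Additive B) ℂ => part_heil ev Θ hΘ (ch ψ)
  have hone := hS.one _ (fun ψ : AddChar (Additive B) ℂ => part Θ (ch ψ)) hpart
    (by rw [sum_part_one]; exact hQ) j
  by_cases h : ∃ ψ₀ : AddChar (Additive B) ℂ, T j (part Θ (ch ψ₀)) ≠ 0
  · obtain ⟨ψ₀, h0⟩ := h
    have hz : ∀ ψ, ψ ≠ ψ₀ → T j (part Θ (ch ψ)) = 0 := fun ψ hψ =>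
      (hone ψ ψ₀ hψ).resolve_right h0
    have hv : ∀ b, T j (Θ b) = ((ch ψ₀ b : ℂˣ) : ℂ) * T j (part Θ (ch ψ₀)) := by
      intro b
      rw [sum_part Θ b, map_sum, Finset.sum_eq_single ψ₀]
      · rw [map_smul, smul_eq_mul]
      · intro ψ _ hψ
        rw [map_smul, hz ψ hψ, smul_zero]
      · intro h; exact absurd (Finset.mem_univ _) h
    refine ⟨ch ψ₀, fun b => ?_⟩
    rw [hv b, hv 1, map_one, Units.val_one, one_mul]
  · push Not at h
    have hv : ∀ b, T j (Θ b) = 0 := by
      intro b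
      rw [sum_part Θ b, map_sum]
      exact Finset.sum_eq_zero fun ψ _ => by rw [map_smul, h ψ, smul_zero]
    exact ⟨1, fun b => by rw [hv b, hv 1, mul_zero]⟩

lemma heil_comp {L L' : Type} [Group L] [Group L'] [Finite L] [Finite L'] (f : L' →* L) (Θ : L → X)
    (hΘ : IsHeilbronn (fun p : L × M => ev (Θ p.1) p.2)) :
    IsHeilbronn (fun p : L' × M => ev (Θ (f p.1)) p.2) :=
  hΘ.comp (f.prodMap (MonoidHom.id M))

/-- values at two commuting elements -/
lemma glue_pair (hS : Stable ev T Q) {L : Type} [Group L] [Finite L] (Θ : L → X)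
    (hΘ : IsHeilbronn (fun p : L × M => ev (Θ p.1) p.2)) (hQ : Q (Θ 1)) (j : ι) {x y : L}
    (hxy : x * y = y * x) :
    ∃ a b : ℂˣ, T j (Θ x) = a * T j (Θ 1) ∧ T j (Θ y) = b * T j (Θ 1) ∧
      T j (Θ (x * y)) = a * b * T j (Θ 1) := by
  let _ : CommGroup (Subgroup.closure ({x, y} : Set L)) :=
    { (inferInstance : Group (Subgroup.closure ({x, y} : Set L))) with
      mul_comm := closure_pair_comm hxy }
  obtain ⟨β, hβ⟩ := glue_comm hS (B := Subgroup.closure ({x, y} : Set L)) (fun b => Θ b)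
    (heil_comp (Subgroup.closure ({x, y} : Set L)).subtype Θ hΘ) (by simpa using hQ) j
  let x' : Subgroup.closure ({x, y} : Set L) := ⟨x, Subgroup.subset_closure (by simp)⟩
  let y' : Subgroup.closure ({x, y} : Set L) := ⟨y, Subgroup.subset_closure (by simp)⟩
  refine ⟨β x', β y', hβ x', hβ y', ?_⟩
  have := hβ (x' * y')
  rw [map_mul, Units.val_mul] at this
  exact this

lemma glue_zero (hS : Stable ev T Q) {L : Type} [Group L] [Finite L] (Θ : L → X)
    (hΘ : IsHeilbronn (fun p : L × M => ev (Θ p.1) p.2)) (hQ : Q (Θ 1)) (j : ι)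
    (h0 : T j (Θ 1) = 0) (x : L) : T j (Θ x) = 0 := by
  obtain ⟨a, b, ha, -, -⟩ := glue_pair hS Θ hΘ hQ j (x := x) (y := x) rfl
  rw [ha, h0, mul_zero]

lemma glue_conj (hS : Stable ev T Q) {L : Type} [Group L] [Finite L] (Θ : L → X)
    (hΘ : IsHeilbronn (fun p : L × M => ev (Θ p.1) p.2)) (j : ι) (g h : L) :
    T j (Θ (h * g * h⁻¹)) = T j (Θ g) := by
  apply hS.loc
  funext y
  have := hΘ.conj (g, y) (h, 1)
  simpa using this

lemma glue_pgroup (hS : Stable ev T Q) {p : ℕ} [Fact p.Prime] : ∀ (N : ℕ) (P : Type) [Group P]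
    [Finite P], Nat.card P = N → IsPGroup p P → ∀ (Θ : P → X)
    (_ : IsHeilbronn (fun p : P × M => ev (Θ p.1) p.2)) (_ : Q (Θ 1)),
      ∀ j g h, T j (Θ (g * h)) * T j (Θ 1) = T j (Θ g) * T j (Θ h) := by
  intro N
  induction N using Nat.strong_induction_on with
  | _ N ih =>
    intro P _ _ hPN hP Θ hΘ hQ j g h
    by_cases hnc : ∀ a b : P, a * b = b * a
    · obtain ⟨a, b, ha, hb, hab⟩ := glue_pair hS Θ hΘ hQ j (hnc g h)
      rw [ha, hb, hab]; ring
    obtain ⟨x, ⟨y, hy⟩, hx⟩ := exists_second_center hP hnc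
    set c := x⁻¹ * y⁻¹ * x * y with hc
    have hcz := hx y
    rw [← hc] at hcz
    have hc1 : c ≠ 1 := by
      intro h
      apply hy
      rw [hc, mul_assoc, mul_eq_one_iff_eq_inv] at h
      have : x * y = y * x := by
        rw [← mul_inv_rev] at h
        have := congrArg (·⁻¹) h
        simp only [inv_inv] at this
        exact this.symm
      exact this
    -- all functionals take the same value at `c` and at `1`
    have hTc : ∀ i, T i (Θ c) = T i (Θ 1) := by
      intro i
      have hxc : T i (Θ (x * c)) = T i (Θ x) := by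
        have : x * c = y⁻¹ * x * (y⁻¹)⁻¹ := by rw [hc]; group
        rw [this, glue_conj hS Θ hΘ i]
      have hcc : x * c = c * x := Subgroup.mem_center_iff.mp hcz x
      obtain ⟨a, b, ha, hb, hab⟩ := glue_pair hS Θ hΘ hQ i hcc
      rw [ha, hab] at hxc
      have ha0 : (a : ℂ) ≠ 0 := a.ne_zero
      rw [hb]
      apply mul_left_cancel₀ ha0
      rw [← hxc]; ring
    have hN := zpowers_normal_of_center hcz
    have hZ : ∀ i, ∀ y : P, ∀ n ∈ Subgroup.zpowers c, T i (Θ (y * n)) = T i (Θ y) := by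
      rintro i y _ ⟨k, rfl⟩
      have hcomm : Commute y c := Subgroup.mem_center_iff.mp hcz y
      simp only
      have hk : ∀ k : ℕ, T i (Θ (y * c ^ k)) = T i (Θ y) := by
        intro k
        induction k with
        | zero => simp
        | succ k ih =>
          have h2 : Commute (y * c ^ k) c := by
            exact (hcomm.mul_left ((Commute.refl c).pow_left k))
          obtain ⟨a, b, ha, hb, hab⟩ := glue_pair hS Θ hΘ hQ i h2.eq
          rw [pow_succ, ← mul_assoc, hab, ← ih, ha]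
          have h3 := hTc i
          rw [hb] at h3
          rw [mul_assoc, h3]
      obtain ⟨m, hm⟩ : ∃ m : ℕ, c ^ k = c ^ m := by
        have : c ^ k ∈ Submonoid.powers c := by
          rw [mem_powers_iff_mem_zpowers]; exact ⟨k, rfl⟩
        obtain ⟨m, hm⟩ := this
        exact ⟨m, hm.symm⟩
      rw [hm, hk]
    -- the average over the subgroup generated by `c`
    have : Fintype (Subgroup.zpowers c) := Fintype.ofFinite _
    have hZcard : (Nat.card (Subgroup.zpowers c) : ℂ) ≠ 0 := by exact_mod_cast Nat.card_pos.ne'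
    let Θ' : P ⧸ Subgroup.zpowers c → X := fun q =>
      (Nat.card (Subgroup.zpowers c) : ℂ)⁻¹ • ∑ z : Subgroup.zpowers c, Θ (q.out * z)
    have hΘ'H : IsHeilbronn (fun p : (P ⧸ Subgroup.zpowers c) × M => ev (Θ' p.1) p.2) := by
      have h1 := push_heil (Subgroup.zpowers c) _ hΘ
      convert h1 using 1
      funext p
      simp only [Θ', map_smul, map_sum, Pi.smul_apply, Finset.sum_apply, smul_eq_mul]
    have hTΘ' : ∀ i (x : P), T i (Θ' (x : P ⧸ Subgroup.zpowers c)) = T i (Θ x) := by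
      intro i x
      obtain ⟨n, hn⟩ := QuotientGroup.mk_out_eq_mul (Subgroup.zpowers c) x
      simp only [Θ', map_smul, map_sum, smul_eq_mul]
      rw [hn]
      have : ∀ z : Subgroup.zpowers c, T i (Θ (x * n * z)) = T i (Θ x) := by
        intro z
        rw [hZ i (x * n) z z.2, hZ i x n n.2]
      rw [Finset.sum_congr rfl (fun z _ => this z), Finset.sum_const, Finset.card_univ,
        nsmul_eq_mul, ← mul_assoc, Nat.card_eq_fintype_card, inv_mul_cancel₀, one_mul]
      rw [← Nat.card_eq_fintype_card]; exact hZcard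
    have hΘ'Q : Q (Θ' 1) := by
      let _ : CommGroup (Subgroup.zpowers c) :=
        { (inferInstance : Group (Subgroup.zpowers c)) with mul_comm := zpowers_comm c }
      have hH := heil_comp (Subgroup.zpowers c).subtype Θ hΘ
      have h0 := hS.inh _ (fun ψ : AddChar (Additive (Subgroup.zpowers c)) ℂ =>
        part (fun b : Subgroup.zpowers c => Θ b) (ch ψ))
        (fun ψ => part_heil ev (fun b : Subgroup.zpowers c => Θ b) hH (ch ψ))
        (by rw [sum_part_one]; exact hQ) 0 ?_
      · convert h0 using 1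
        unfold part
        simp only [Θ']
        congr 1
        have hout : ((1 : P ⧸ Subgroup.zpowers c).out) ∈ Subgroup.zpowers c := by
          rw [← QuotientGroup.eq_one_iff]; exact QuotientGroup.out_eq' _
        have h1 : ∑ z : Subgroup.zpowers c, Θ ((1 : P ⧸ Subgroup.zpowers c).out * z)
            = ∑ z : Subgroup.zpowers c, Θ z :=
          Equiv.sum_comp (Equiv.mulLeft (⟨_, hout⟩ : Subgroup.zpowers c))
            (fun z : Subgroup.zpowers c => Θ z)
        rw [h1]
        refine Finset.sum_congr rfl fun z _ => ?_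
        have : (((ch (0 : AddChar (Additive (Subgroup.zpowers c)) ℂ) z)⁻¹ : ℂˣ) : ℂ) = 1 := by
          rw [Units.val_inv_eq_inv_val, ch_apply, AddChar.zero_apply, inv_one]
        rw [this, one_smul]
      · intro ψ hψ i
        unfold part
        rw [map_smul, map_sum, smul_eq_mul]
        have h1 : ∀ b : Subgroup.zpowers c, T i ((((ch ψ b)⁻¹ : ℂˣ) : ℂ) • Θ b)
            = (-ψ) (Additive.ofMul b) * T i (Θ 1) := by
          intro b
          rw [map_smul, smul_eq_mul, Units.val_inv_eq_inv_val, ch_apply, AddChar.neg_apply',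
            ← hZ i 1 b b.2, one_mul]
        rw [Finset.sum_congr rfl (fun b _ => h1 b), ← Finset.sum_mul]
        have h2 : ∑ b : Subgroup.zpowers c, (-ψ) (Additive.ofMul b) = 0 := by
          have h3 := (AddChar.sum_eq_zero_iff_ne_zero (ψ := -ψ)).mpr (by
            simpa using hψ)
          rw [← h3]
          exact Fintype.sum_equiv Additive.ofMul _ _ (fun _ => rfl)
        rw [h2, zero_mul, mul_zero]
    have key := ih _ (by rw [← hPN]; exact card_quotient_zpowers_lt hc1) (P ⧸ Subgroup.zpowers c)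
      rfl (hP.to_quotient _) Θ' hΘ'H hΘ'Q j (g : P ⧸ Subgroup.zpowers c) h
    rwa [← QuotientGroup.mk_mul, ← QuotientGroup.mk_one, hTΘ', hTΘ', hTΘ', hTΘ'] at key

/-- The gluing theorem: the functionals are multiplied by linear characters. -/
theorem glue (hS : Stable ev T Q) {L : Type} [Group L] [Finite L] (Θ : L → X)
    (hΘ : IsHeilbronn (fun p : L × M => ev (Θ p.1) p.2)) (hQ : Q (Θ 1)) (j : ι) :
    ∃ ψ : L →* ℂˣ, ∀ x, T j (Θ x) = (ψ x : ℂˣ) * T j (Θ 1) := by
  by_cases h0 : T j (Θ 1) = 0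
  · exact ⟨1, fun x => by rw [glue_zero hS Θ hΘ hQ j h0 x, h0, mul_zero]⟩
  have hne : ∀ x, T j (Θ x) ≠ 0 := by
    intro x
    obtain ⟨a, b, ha, -, -⟩ := glue_pair hS Θ hΘ hQ j (x := x) (y := x) rfl
    rw [ha]
    exact mul_ne_zero a.ne_zero h0
  let f : L → ℂˣ := fun x => Units.mk0 (T j (Θ x) / T j (Θ 1)) (div_ne_zero (hne x) h0)
  have hf : ∀ g h, f (g * h) = f g * f h := by
    apply mul_of_pgroups
    · intro g h
      apply Units.ext
      simp only [f, Units.val_mk0]
      rw [glue_conj hS Θ hΘ j]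
    · intro g n
      induction n with
      | zero => apply Units.ext; simp [f, h0]
      | succ n ih =>
        rw [pow_succ, pow_succ, ← ih]
        apply Units.ext
        simp only [f, Units.val_mk0, Units.val_mul]
        obtain ⟨a, b, ha, hb, hab⟩ := glue_pair hS Θ hΘ hQ j ((Commute.refl g).pow_left n).eq
        rw [ha, hb, hab]
        field_simp
    · intro p hp P hP x hx y hy
      have : Fact p.Prime := ⟨hp⟩
      apply Units.ext
      simp only [f, Units.val_mk0, Units.val_mul]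
      have h1 := glue_pgroup hS (p := p) (Nat.card P) P rfl hP (fun x => Θ x)
        (heil_comp P.subtype Θ hΘ) (by simpa using hQ) j ⟨x, hx⟩ ⟨y, hy⟩
      simp only [Subgroup.coe_mul, Subgroup.coe_one] at h1
      rw [div_mul_div_comm, div_eq_div_iff h0 (mul_ne_zero h0 h0)]
      linear_combination T j (Θ 1) * h1
  refine ⟨{ toFun := f, map_one' := ?_, map_mul' := hf }, fun x => ?_⟩
  · apply Units.ext
    simp [f, h0]
  · change T j (Θ x) = T j (Θ x) / T j (Θ 1) * T j (Θ 1)
    rw [div_mul_cancel₀ _ h0]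

/-- a perfect group has no nontrivial linear characters -/
lemma perfect_char {L : Type} [Group L] (hL : commutator L = ⊤) (ψ : L →* ℂˣ) (x : L) :
    ψ x = 1 := by
  have h : commutator L ≤ ψ.ker := Abelianization.commutator_subset_ker ψ
  rw [hL] at h
  exact h (Subgroup.mem_top x)

lemma perfect_of_bracket {G : Type} [Group G] {L : Subgroup G} (hL : ⁅L, L⁆ = L) :
    commutator L = ⊤ := by
  apply Subgroup.map_injective L.subtype_injective
  rw [Subgroup.map_subtype_commutator, hL]
  ext x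
  simp

theorem glue_perfect (hS : Stable ev T Q) {L : Type} [Group L] [Finite L] (hL : commutator L = ⊤)
    (Θ : L → X) (hΘ : IsHeilbronn (fun p : L × M => ev (Θ p.1) p.2)) (hQ : Q (Θ 1)) (j : ι)
    (x : L) : T j (Θ x) = T j (Θ 1) := by
  obtain ⟨ψ, hψ⟩ := glue hS Θ hΘ hQ j
  rw [hψ x, perfect_char hL ψ x, Units.val_one, one_mul]

end Pool.Agent.Helper503_CP
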