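import Mathlib
import Pool.Agent.Helper503_CP.Glue
import Pool.Agent.TH820.NKer
import Pool.Agent.H302R10.Ded

/-!
# Heilbronn functions on central products
-/

set_option autoImplicit false

namespace Pool.Agent.Helper503_CP

open Pool.Agent.H302R2

variable {G : Type} [Group G]

/-- the subgroups commute elementwise -/
def Comm (H K : Subgroup G) : Prop := ∀ x ∈ H, ∀ y ∈ K, x * y = y * x

lemma Comm.symm {H K : Subgroup G} (h : Comm H K) : Comm K H := fun x hx y hy => (h y hy x hx).symm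

lemma comm_iff {H K : Subgroup G} : Comm H K ↔ K ≤ Subgroup.centralizer (H : Set G) := by
  constructor
  · intro h y hy
    rw [Subgroup.mem_centralizer_iff]
    exact fun x hx => h x hx y hy
  · intro h x hx y hy
    exact Subgroup.mem_centralizer_iff.mp (h hy) x hx

lemma comm_iSup {ι : Sort*} {H : Subgroup G} {K : ι → Subgroup G} (h : ∀ i, Comm H (K i)) :
    Comm H (⨆ i, K i) := by
  rw [comm_iff]
  exact iSup_le fun i => comm_iff.mp (h i)

lemma bracket_le (H : Subgroup G) : ⁅H, H⁆ ≤ H := Subgroup.commutator_le_self H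

/-- a linear character is trivial on the commutator subgroup -/
lemma char_bracket {H : Subgroup G} (ψ : H →* ℂˣ) (d : G) (hd : d ∈ ⁅H, H⁆) :
    ψ ⟨d, bracket_le H hd⟩ = 1 := by
  have h : commutator H ≤ ψ.ker := Abelianization.commutator_subset_ker ψ
  rw [← Subgroup.map_subtype_commutator] at hd
  obtain ⟨d', hd', hdd⟩ := hd
  have : (⟨d, bracket_le H (by rw [← Subgroup.map_subtype_commutator]; exact ⟨d', hd', hdd⟩)⟩ : H)
      = d' := Subtype.ext hdd.symm
  have h2 := h hd'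
  rw [MonoidHom.mem_ker] at h2
  rw [this, h2]

/-- the product of commuting subgroups -/
def prodHom {H K : Subgroup G} (h : Comm H K) : H × K →* G :=
  MonoidHom.noncommCoprod H.subtype K.subtype (fun x y => h x x.2 y y.2)

lemma prodHom_apply {H K : Subgroup G} (h : Comm H K) (x : H) (y : K) :
    prodHom h (x, y) = x * y := rfl

lemma mem_sup_iff {H K : Subgroup G} (h : Comm H K) {g : G} (hg : g ∈ H ⊔ K) :
    ∃ x ∈ H, ∃ y ∈ K, g = x * y := by
  have h1 : (prodHom h).range = H ⊔ K := by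
    unfold prodHom
    rw [MonoidHom.noncommCoprod_range, Subgroup.range_subtype, Subgroup.range_subtype]
  rw [← h1] at hg
  obtain ⟨⟨x, y⟩, rfl⟩ := hg
  exact ⟨x, x.2, y, y.2, rfl⟩

/-- restriction to a subgroup -/
def res (S : Subgroup G) : (G → ℂ) →ₗ[ℂ] (S → ℂ) := LinearMap.funLeft ℂ ℂ (fun x : S => (x : G))

lemma res_apply (S : Subgroup G) (F : G → ℂ) (x : S) : res S F x = F x := rfl

variable [Finite G]

lemma heil_prod {H K S : Subgroup G} (h : Comm H K) (hH : H ≤ S) (hK : K ≤ S) {F : G → ℂ}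
    (hF : IsHeilbronn (res S F)) :
    IsHeilbronn (fun p : H × K => res K (fun g => F (p.1 * g)) p.2) := by
  have := hF.comp ((prodHom h).codRestrict S (fun p => S.mul_mem (hH p.1.2) (hK p.2.2)))
  exact this

/-- the elements of a subgroup -/
noncomputable def el (L : Subgroup G) : Finset G := (Set.toFinite (L : Set G)).toFinset

lemma mem_el {L : Subgroup G} {x : G} : x ∈ el L ↔ x ∈ L := by
  rw [el, Set.Finite.mem_toFinset]; rfl

lemma card_el_ne (L : Subgroup G) : ((el L).card : ℂ) ≠ 0 := by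
  have : (el L).Nonempty := ⟨1, mem_el.mpr L.one_mem⟩
  exact_mod_cast this.card_pos.ne'

/-- the average over the left translates by the elements of a subgroup -/
noncomputable def av (L : Subgroup G) : (G → ℂ) →ₗ[ℂ] (G → ℂ) where
  toFun F g := ((el L).card : ℂ)⁻¹ * ∑ x ∈ el L, F (x * g)
  map_add' F F' := by
    funext g
    simp only [Pi.add_apply, Finset.sum_add_distrib, mul_add]
  map_smul' c F := by
    funext g
    simp only [Pi.smul_apply, smul_eq_mul, RingHom.id_apply, ← Finset.mul_sum]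
    ring

lemma av_apply (L : Subgroup G) (F : G → ℂ) (g : G) :
    av L F g = ((el L).card : ℂ)⁻¹ * ∑ x ∈ el L, F (x * g) := rfl

lemma av_const (L : Subgroup G) (F : G → ℂ) (g : G) (h : ∀ x ∈ L, F (x * g) = F g) :
    av L F g = F g := by
  rw [av_apply, Finset.sum_congr rfl (fun x hx => h x (mem_el.mp hx)), Finset.sum_const,
    nsmul_eq_mul, ← mul_assoc, inv_mul_cancel₀ (card_el_ne L), one_mul]

/-- the mixed difference: remove the averages over the commutator subgroups -/
noncomputable def mx : List (Subgroup G) → ((G → ℂ) →ₗ[ℂ] (G → ℂ))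
  | [] => LinearMap.id
  | H :: ℓ => mx ℓ - (av ⁅H, H⁆).comp (mx ℓ)

lemma mx_nil (F : G → ℂ) : mx [] F = F := rfl

lemma mx_cons (H : Subgroup G) (ℓ : List (Subgroup G)) (F : G → ℂ) (g : G) :
    mx (H :: ℓ) F g = mx ℓ F g - av ⁅H, H⁆ (mx ℓ F) g := rfl

/-- the subgroup generated by `M₀` and the members of the list -/
def sp (M₀ : Subgroup G) : List (Subgroup G) → Subgroup G
  | [] => M₀
  | H :: ℓ => H ⊔ sp M₀ ℓ

omit [Finite G] in
lemma le_sp (M₀ : Subgroup G) : ∀ (ℓ : List (Subgroup G)), ∀ H ∈ ℓ, H ≤ sp M₀ ℓ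
  | [], H, h => by simp at h
  | K :: ℓ, H, h => by
    rcases List.mem_cons.mp h with rfl | h
    · exact le_sup_left
    · exact (le_sp M₀ ℓ H h).trans le_sup_right

omit [Finite G] in
lemma comm_sp {M₀ H : Subgroup G} : ∀ (ℓ : List (Subgroup G)), Comm H M₀ → (∀ K ∈ ℓ, Comm H K) →
    Comm H (sp M₀ ℓ)
  | [], h, _ => h
  | K :: ℓ, h, h' => by
    rw [comm_iff]
    exact sup_le (comm_iff.mp (h' K (by simp)))
      (comm_iff.mp (comm_sp ℓ h (fun K' hK' => h' K' (by simp [hK']))))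

lemma mx_loc {S : Subgroup G} {F F' : G → ℂ} (hF : ∀ g ∈ S, F g = F' g) :
    ∀ (ℓ : List (Subgroup G)), (∀ H ∈ ℓ, H ≤ S) → ∀ g ∈ S, mx ℓ F g = mx ℓ F' g
  | [], _ => hF
  | H :: ℓ, hℓ => by
    intro g hg
    have ih := mx_loc hF ℓ (fun K hK => hℓ K (by simp [hK]))
    rw [mx_cons, mx_cons, av_apply, av_apply, ih g hg]
    congr 2
    refine Finset.sum_congr rfl fun x hx => ih _ ?_
    exact S.mul_mem (hℓ H (by simp) (bracket_le H (mem_el.mp hx))) hg

lemma mx_trans {x : G} (F : G → ℂ) :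
    ∀ (ℓ : List (Subgroup G)), (∀ H ∈ ℓ, ∀ y ∈ H, x * y = y * x) → ∀ g,
      mx ℓ (fun g => F (x * g)) g = mx ℓ F (x * g)
  | [], _ => fun g => rfl
  | H :: ℓ, hℓ => by
    intro g
    have ih := mx_trans (x := x) F ℓ (fun K hK => hℓ K (by simp [hK]))
    rw [mx_cons, mx_cons, av_apply, av_apply, ih g]
    congr 2
    refine Finset.sum_congr rfl fun y hy => ?_
    rw [ih, ← mul_assoc, ← mul_assoc, hℓ H (by simp) y (bracket_le H (mem_el.mp hy))]

/-- Every Heilbronn function on `H` of degree less than `μ` is constant on the commutator subgroup.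
This holds for `μ = 2` and all finite groups. -/
def Deg (μ : ℕ) (H : Type) [Group H] : Prop :=
  ∀ η : H → ℂ, IsHeilbronn η → ∀ s : ℕ, s < μ → η 1 = s → ∀ d ∈ commutator H, η d = η 1

lemma deg_two (H : Type) [Group H] [Finite H] : Deg 2 H := by
  intro η hη s hs h1 d hd
  have h : s = 0 ∨ s = 1 := by omega
  rcases h with rfl | rfl
  · have h0 : ∀ x, η x = 0 := fun x => by
      have := hη.norm_le x
      rw [h1, Nat.cast_zero, Complex.zero_re] at this
      exact norm_le_zero_iff.mp this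
    rw [h0, h0]
  · obtain ⟨ψ, hψ⟩ := hη.deg_one (by simpa using h1)
    have h2 : commutator H ≤ ψ.ker := Abelianization.commutator_subset_ker ψ
    have h3 : ψ d = 1 := h2 hd
    rw [hψ, hψ, h3, map_one]

lemma Deg.mono {μ μ' : ℕ} (h : μ ≤ μ') {H : Type} [Group H] (hH : Deg μ' H) : Deg μ H :=
  fun η hη s hs h1 d hd => hH η hη s (hs.trans_le h) h1 d hd

lemma deg_of_rigid {μ : ℕ} {H : Type} [Group H] (hH : Pool.Agent.H302R10.Rigid (μ - 1) H) :
    Deg μ H :=
  fun η hη s hs h1 d _ => hH η hη s (by omega) h1 d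

lemma Deg.surj {μ : ℕ} {S H : Type} [Group S] [Group H] [Finite S] [Finite H] (hS : Deg μ S)
    (f : S →* H) (hf : Function.Surjective f) : Deg μ H := by
  intro η hη s hs h1 d hd
  have h2 : (commutator S).map f = commutator H := by
    rw [map_commutator_eq, MonoidHom.range_eq_top.mpr hf]
    rfl
  rw [← h2] at hd
  obtain ⟨d', hd', rfl⟩ := hd
  have := hS (fun x => η (f x)) (hη.comp f) s hs (by simpa using h1) d' hd'
  simpa using this

lemma Deg.inv {μ : ℕ} {H : Type} [Group H] [Finite H] (hH : Deg μ H) {η : H → ℂ}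
    (hη : IsHeilbronn η) (hlt : (η 1).re < μ) (d : H) (hd : d ∈ commutator H) (x : H) :
    η (d * x) = η x := by
  obtain ⟨r, hr⟩ := hη.exists_deg
  refine Pool.Agent.TH820.const_of_kernel hη (commutator H) (fun n hn => ?_) d hd x
  refine hH η hη r ?_ hr n hn
  rw [hr, Complex.natCast_re] at hlt
  exact_mod_cast hlt

lemma heil_nonneg {S : Subgroup G} {φ : G → ℂ} (hφ : IsHeilbronn (res S φ)) : 0 ≤ (φ 1).re := by
  obtain ⟨r, hr⟩ := hφ.exists_deg
  have h2 : φ 1 = r := hr
  rw [h2, Complex.natCast_re]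
  exact Nat.cast_nonneg r

lemma heil_res {S S' : Subgroup G} (h : S' ≤ S) {φ : G → ℂ} (hφ : IsHeilbronn (res S φ)) :
    IsHeilbronn (res S' φ) := hφ.comp (Subgroup.inclusion h)

/-- lower bound for the degree of Heilbronn functions with nonzero mixed difference -/
def MixedBound (M₀ : Subgroup G) (ℓ : List (Subgroup G)) (m : ℝ) : Prop :=
  ∀ F : G → ℂ, IsHeilbronn (res (sp M₀ ℓ) F) → (∃ y ∈ sp M₀ ℓ, mx ℓ F y ≠ 0) → m ≤ (F 1).re

lemma mixed_base {H M₀ : Subgroup G} (hM : Comm H M₀) {μ : ℕ} (hH : Deg μ H) :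
    MixedBound M₀ [H] μ := by
  classical
  rintro F hF ⟨g, hg, hne⟩
  by_contra hlt
  push Not at hlt
  have hg' : g ∈ H ⊔ M₀ := hg
  obtain ⟨x, hx, y, hy, rfl⟩ := mem_sup_iff hM hg'
  -- the parts along the subgroup generated by `y`
  let B := Subgroup.zpowers (⟨y, hy⟩ : M₀)
  let _ : CommGroup B := { (inferInstance : Group B) with mul_comm := zpowers_comm _ }
  have : Fintype B := Fintype.ofFinite B
  have hBM : ∀ b : B, ((b : M₀) : G) ∈ M₀ := fun b => (b : M₀).2
  let Θ : B → (G → ℂ) := fun b g => F (g * ((b : M₀) : G))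
  have hcomm : ∀ (b : B) (h : H), Commute ((B.subtype.comp (MonoidHom.id B)) b : G) (h : G) :=
    fun b h => (hM h h.2 _ (b : M₀).2).symm
  have hH' : IsHeilbronn (fun p : B × H => res H (Θ p.1) p.2) := by
    let f : B × H →* sp M₀ [H] :=
      (MonoidHom.noncommCoprod (M₀.subtype.comp B.subtype) H.subtype
        (fun b h => (hM h h.2 _ (b : M₀).2).symm)).codRestrict _ (by
          rintro ⟨b, h⟩
          exact (H ⊔ M₀).mul_mem (Subgroup.mem_sup_right (b : M₀).2) (Subgroup.mem_sup_left h.2))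
    have h1 := hF.comp f
    convert h1 using 1
    funext p
    change F (p.2 * ((p.1 : M₀) : G)) = F (((p.1 : M₀) : G) * p.2)
    rw [hM p.2 p.2.2 _ (p.1 : M₀).2]
  have hsum : ∑ ψ : AddChar (Additive B) ℂ, part Θ (ch ψ) = F := by
    rw [sum_part_one]
    funext g
    simp [Θ]
  have hp : ∀ ψ : AddChar (Additive B) ℂ, IsHeilbronn (res H (part Θ (ch ψ))) :=
    fun ψ => part_heil (res H) Θ hH' (ch ψ)
  have hle : ∀ ψ : AddChar (Additive B) ℂ, (part Θ (ch ψ) 1).re < μ := by
    intro ψ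
    refine lt_of_le_of_lt ?_ hlt
    have h1 : F 1 = ∑ ψ : AddChar (Additive B) ℂ, part Θ (ch ψ) 1 := by
      rw [← Finset.sum_apply, hsum]
    rw [h1, Complex.re_sum]
    exact Finset.single_le_sum (f := fun l => (part Θ (ch l) 1).re)
      (fun l _ => heil_nonneg (hp l)) (Finset.mem_univ ψ)
  have hinv : ∀ d ∈ ⁅H, H⁆, F (d * (x * y)) = F (x * y) := by
    intro d hd
    have hd' : (⟨d, bracket_le H hd⟩ : H) ∈ commutator H := by
      rw [← Subgroup.map_subtype_commutator] at hd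
      obtain ⟨d', hd', hdd⟩ := hd
      have : (⟨d, bracket_le H (by rw [← Subgroup.map_subtype_commutator]; exact ⟨d', hd', hdd⟩)⟩ : H)
          = d' := Subtype.ext hdd.symm
      rw [this]; exact hd'
    let y' : B := ⟨⟨y, hy⟩, Subgroup.mem_zpowers _⟩
    have hv : ∀ z : G, F (z * y) = ∑ ψ : AddChar (Additive B) ℂ,
        ((ch ψ y' : ℂˣ) : ℂ) * part Θ (ch ψ) z := by
      intro z
      have h1 := congrFun (sum_part Θ y') z
      rw [Finset.sum_apply] at h1
      exact h1
    rw [← mul_assoc, hv, hv]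
    refine Finset.sum_congr rfl fun ψ _ => ?_
    congr 1
    exact hH.inv (hp ψ) (hle ψ) ⟨d, bracket_le H hd⟩ hd' ⟨x, hx⟩
  apply hne
  rw [mx_cons, mx_nil, av_const _ _ _ hinv, sub_self]

/-- Each further commuting subgroup doubles the bound. -/
theorem mixed_cons {M₀ H : Subgroup G} {ℓ : List (Subgroup G)} (hHℓ : ∀ K ∈ ℓ, Comm H K)
    (hM : Comm H M₀) {m : ℝ} (ih : MixedBound M₀ ℓ m) : MixedBound M₀ (H :: ℓ) (2 * m) := by
  have hcomm : Comm H (sp M₀ ℓ) := comm_sp ℓ hM hHℓ
  intro F hF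
  rintro ⟨g, hg, hne⟩
  by_contra hlt
  push Not at hlt
  -- the functionals
  let T : sp M₀ ℓ → ((G → ℂ) →ₗ[ℂ] ℂ) := fun y => (LinearMap.proj (y : G)).comp (mx ℓ)
  have hT : ∀ y F, T y F = mx ℓ F y := fun y F => rfl
  have hS : Stable (res (sp M₀ ℓ)) T (fun φ => (φ 1).re < 2 * m) := by
    constructor
    · intro φ φ' h y
      rw [hT, hT]
      refine mx_loc (S := sp M₀ ℓ) (fun g hg => ?_) ℓ (le_sp M₀ ℓ) y y.2
      exact congrFun h ⟨g, hg⟩
    · intro κ _ φ hφ hQ y k k' hkk
      by_contra hcon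
      push Not at hcon
      have h1 := ih (φ k) (hφ k) ⟨y, y.2, hcon.1⟩
      have h2 := ih (φ k') (hφ k') ⟨y, y.2, hcon.2⟩
      rw [Finset.sum_apply, Complex.re_sum] at hQ
      classical
      have h3 : (φ k 1).re + (φ k' 1).re ≤ ∑ l, (φ l 1).re := by
        rw [← Finset.sum_pair hkk (f := fun l => (φ l 1).re)]
        exact Finset.sum_le_sum_of_subset_of_nonneg (Finset.subset_univ _)
          (fun l _ _ => heil_nonneg (hφ l))
      linarith
    · intro κ _ φ hφ hQ k _
      rw [Finset.sum_apply, Complex.re_sum] at hQ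
      have h3 : (φ k 1).re ≤ ∑ l, (φ l 1).re :=
        Finset.single_le_sum (f := fun l => (φ l 1).re) (fun l _ => heil_nonneg (hφ l))
          (Finset.mem_univ k)
      change (φ k 1).re < _
      linarith
  have hΘ := heil_prod hcomm le_sup_left le_sup_right hF
  have hg2 := glue hS (fun (x : H) (g : G) => F (x * g)) hΘ (by simpa using hlt)
  -- the mixed difference is invariant under the commutator subgroup
  have hinv : ∀ d ∈ ⁅H, H⁆, ∀ x ∈ H, ∀ y ∈ sp M₀ ℓ, mx ℓ F (d * (x * y)) = mx ℓ F (x * y) := by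
    intro d hd x hx y hy
    obtain ⟨ψ, hψ⟩ := hg2 ⟨y, hy⟩
    have htr : ∀ z : H, T ⟨y, hy⟩ (fun g => F (z * g)) = mx ℓ F (z * y) := by
      intro z
      rw [hT]
      exact mx_trans F ℓ (fun K hK w hw => hHℓ K hK z z.2 w hw) y
    have h1 := hψ (⟨d, bracket_le H hd⟩ * ⟨x, hx⟩)
    have h2 := hψ ⟨x, hx⟩
    rw [htr] at h1 h2
    rw [map_mul, char_bracket ψ d hd, one_mul, ← h2] at h1
    rw [← mul_assoc]
    exact h1
  obtain ⟨x, hx, y, hy, rfl⟩ := mem_sup_iff hcomm hg
  apply hne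
  rw [mx_cons, av_const, sub_self]
  intro d hd
  exact hinv d hd x hx y hy

/-- `2 ^ (k - 1) μ` for `k` commuting subgroups. -/
theorem mixed {M₀ H : Subgroup G} (hM : Comm H M₀) {μ : ℕ} (hH : Deg μ H) :
    ∀ (ℓ : List (Subgroup G)), ℓ.Pairwise Comm → (∀ K ∈ ℓ, Comm K M₀) → (∀ K ∈ ℓ, Comm K H) →
      MixedBound M₀ (ℓ ++ [H]) (2 ^ ℓ.length * μ)
  | [], _, _, _ => by
    rw [List.nil_append, List.length_nil, pow_zero, one_mul]
    exact mixed_base hM hH
  | K :: ℓ, hpw, hM', hK => by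
    have ih := mixed hM hH ℓ (List.pairwise_cons.mp hpw).2 (fun K' h => hM' K' (by simp [h]))
      (fun K' h => hK K' (by simp [h]))
    have h1 := mixed_cons (H := K) (fun K' hK' => ?_) (hM' K (by simp)) ih
    · rw [List.cons_append, List.length_cons, pow_succ, mul_comm _ (2 : ℝ), mul_assoc]
      exact h1
    · rcases List.mem_append.mp hK' with h | h
      · exact (List.pairwise_cons.mp hpw).1 K' h
      · rw [List.mem_singleton.mp h]
        exact hK K (by simp)

end Pool.Agent.Helper503_CP
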