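import Mathlib
import Pool.Agent.Helper503_CP.Mixed
import Pool.Agent.H541R3.ART.Core
import Pool.Agent.TH820.OddFinal

/-!
# Artin L-functions of central products
-/

set_option autoImplicit false

namespace Pool.Agent.Helper503_CP

open Pool.Agent.H302R2 Pool.Agent.H541R3.ART

/-- One of the following: `μ ≤ 2`; the group `H` is a quotient of a finite group which is on the
list `FacO (μ - 1)` of the starting files; every Heilbronn function on `H` of degree less than `μ` is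
constant on the commutator subgroup of `H`. -/
def Weight (μ : ℕ) (H : Type) [Group H] : Prop :=
  μ ≤ 2 ∨ (∃ (S : Type) (_ : Group S) (_ : Finite S) (f : S →* H), Function.Surjective f ∧
    Pool.Agent.TH820.FacO (μ - 1) S) ∨ Deg μ H

lemma Weight.deg {μ : ℕ} {H : Type} [Group H] [Finite H] (h : Weight μ H) : Deg μ H := by
  rcases h with h | ⟨S, _, _, f, hf, hS⟩ | h
  · exact (deg_two H).mono h
  · exact (deg_of_rigid hS.rigid).surj f hf
  · exact h

variable {G : Type} [Group G] [Finite G]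

lemma av_inv (D : Subgroup G) (F : G → ℂ) (n : G) (hn : n ∈ D) (x : G) :
    av D F (n * x) = av D F x := by
  rw [av_apply, av_apply]
  congr 1
  refine Finset.sum_equiv (Equiv.mulRight n) (fun y => ?_) (fun y _ => ?_)
  · rw [mem_el, mem_el]
    exact ⟨fun h => D.mul_mem h hn, fun h => by
      have := D.mul_mem h (D.inv_mem hn)
      simpa using this⟩
  · simp [mul_assoc]

lemma pair_mx [Fintype G] {χ : G → ℂ} (hχ : χ ∈ Irr G) (F : G → ℂ) :
    ∀ ℓ : List (Subgroup G), (∀ K ∈ ℓ, K.Normal ∧ ∃ d ∈ ⁅K, K⁆, χ d ≠ χ 1) →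
      ∑ g : G, mx ℓ F g * χ g⁻¹ = ∑ g : G, F g * χ g⁻¹
  | [], _ => rfl
  | K :: ℓ, h => by
    have ih := pair_mx hχ F ℓ (fun K' h' => h K' (by simp [h']))
    obtain ⟨hK, d, hd, hne⟩ := h K (by simp)
    have hDn : (⁅K, K⁆ : Subgroup G).Normal := inferInstance
    have h0 := pair_zero hχ ⁅K, K⁆ (θ := av ⁅K, K⁆ (mx ℓ F)) (fun n hn x => av_inv _ _ n hn x) hd hne
    simp_rw [mx_cons, sub_mul]
    rw [Finset.sum_sub_distrib, h0, sub_zero, ih]

lemma normal_of_central {ι : Type} {H : ι → Subgroup G} (hc : ∀ i j, i ≠ j → Comm (H i) (H j))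
    (hH : ⨆ i, H i = ⊤) (i : ι) : (H i).Normal := by
  rw [← Subgroup.normalizer_eq_top_iff, eq_top_iff, ← hH]
  refine iSup_le fun j => ?_
  by_cases hij : i = j
  · subst hij
    exact Subgroup.le_normalizer
  · exact (comm_iff.mp (hc i j hij)).trans (Subgroup.centralizer_le_normalizer _)

/-- the set of the `i` for which `χ` is not trivial on the commutator subgroup of `H i` -/
def Seen {ι : Type} (H : ι → Subgroup G) (χ : G → ℂ) : Set ι := {i | ∃ d ∈ ⁅H i, H i⁆, χ d ≠ χ 1}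

/-- **Central products.** -/
theorem central_product {s₀ : ℂ} (A : ArtinData G s₀) {r : ℕ}
    (hr : meromorphicOrderAt (A.Lin ⊥ 1) s₀ = (r : WithTop ℤ)) {ι : Type} [Finite ι]
    {H : ι → Subgroup G} (hc : ∀ i j, i ≠ j → Comm (H i) (H j)) (hH : ⨆ i, H i = ⊤)
    {χ : G → ℂ} (hχ : χ ∈ Irr G) (h0 : meromorphicOrderAt (A.L χ) s₀ ≠ 0)
    {i : ι} (hi : i ∈ Seen H χ) {μ : ℕ} (hμ : Deg μ (H i)) :
    2 ^ (Nat.card (Seen H χ)) * μ ≤ 2 * r := by
  classical
  have : Fintype G := Fintype.ofFinite G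
  have : Fintype ι := Fintype.ofFinite ι
  have hθ := A.isHeilbronn
  have h1 := A.theta_one hr
  let J : Finset ι := Finset.univ.filter (· ∈ Seen H χ)
  have hJ : ∀ j, j ∈ J ↔ j ∈ Seen H χ := fun j => by simp [J]
  let M₀ : Subgroup G := ⨆ j : {j // j ∉ J}, H j
  let ℓ : List (Subgroup G) := (J.erase i).toList.map H
  have hM : ∀ j ∈ J, Comm (H j) M₀ := fun j hj =>
    comm_iSup fun k => hc j k (fun h => k.2 (h ▸ hj))
  have hmem : ∀ K ∈ ℓ, ∃ j ∈ J, j ≠ i ∧ H j = K := by
    intro K hK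
    obtain ⟨j, hj, rfl⟩ := List.mem_map.mp hK
    rw [Finset.mem_toList, Finset.mem_erase] at hj
    exact ⟨j, hj.2, hj.1, rfl⟩
  have hpw : ℓ.Pairwise Comm := by
    rw [List.pairwise_map]
    exact (Finset.nodup_toList _).pairwise_of_forall_ne fun a _ b _ hab => hc a b hab
  have hb := mixed (hM i ((hJ i).mpr hi)) hμ ℓ hpw
    (fun K hK => by obtain ⟨j, hj, -, rfl⟩ := hmem K hK; exact hM j hj)
    (fun K hK => by obtain ⟨j, hj, hji, rfl⟩ := hmem K hK; exact hc j i hji)
  -- the subgroup generated is everything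
  have hle : ∀ (ℓ : List (Subgroup G)), M₀ ≤ sp M₀ ℓ := by
    intro ℓ
    induction ℓ with
    | nil => exact le_rfl
    | cons K ℓ ih => exact ih.trans le_sup_right
  have hsp : sp M₀ (ℓ ++ [H i]) = ⊤ := by
    rw [eq_top_iff, ← hH]
    refine iSup_le fun j => ?_
    by_cases hj : j ∈ J
    · refine le_sp M₀ _ _ ?_
      by_cases hji : j = i
      · subst hji; simp
      · rw [List.mem_append]
        left
        exact List.mem_map.mpr ⟨j, by rw [Finset.mem_toList, Finset.mem_erase]; exact ⟨hji, hj⟩, rfl⟩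
    · exact (le_iSup (fun j : {j // j ∉ J} => H j) ⟨j, hj⟩).trans (hle _)
  have hall : ∀ K ∈ ℓ ++ [H i], K.Normal ∧ ∃ d ∈ ⁅K, K⁆, χ d ≠ χ 1 := by
    intro K hK
    rcases List.mem_append.mp hK with h | h
    · obtain ⟨j, hj, -, rfl⟩ := hmem K h
      exact ⟨normal_of_central hc hH j, (hJ j).mp hj⟩
    · rw [List.mem_singleton.mp h]
      exact ⟨normal_of_central hc hH i, hi⟩
  have hpair := pair_mx hχ (theta A.ord) (ℓ ++ [H i]) hall
  have hex : ∃ y ∈ sp M₀ (ℓ ++ [H i]), mx (ℓ ++ [H i]) (theta A.ord) y ≠ 0 := by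
    by_contra hcon
    push Not at hcon
    apply h0
    have h2 := A.order_eq hχ (k := 0) (by
      rw [← hpair]
      rw [Finset.sum_eq_zero]
      · simp
      · intro g _
        rw [hcon g (by rw [hsp]; trivial), zero_mul])
    exact_mod_cast h2
  have h3 := hb (theta A.ord) (hθ.comp (sp M₀ (ℓ ++ [H i])).subtype) hex
  rw [h1, Complex.natCast_re] at h3
  have hlen : ℓ.length + 1 = Nat.card (Seen H χ) := by
    have h4 : Nat.card (Seen H χ) = J.card := by
      rw [Nat.card_eq_fintype_card, ← Set.toFinset_card]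
      congr 1
      ext j
      rw [Set.mem_toFinset, hJ]
    rw [h4, List.length_map, Finset.length_toList, Finset.card_erase_of_mem ((hJ i).mpr hi)]
    have := Finset.card_pos.mpr ⟨i, (hJ i).mpr hi⟩
    omega
  rw [← hlen, pow_succ]
  have h5 : ((2 ^ ℓ.length * μ : ℕ) : ℝ) ≤ r := by exact_mod_cast h3
  have h6 : 2 ^ ℓ.length * μ ≤ r := by exact_mod_cast h5
  calc 2 ^ ℓ.length * 2 * μ = 2 * (2 ^ ℓ.length * μ) := by ring
    _ ≤ 2 * r := Nat.mul_le_mul_left 2 h6

/-- the case of order zero -/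
lemma order_zero {s₀ : ℂ} (A : ArtinData G s₀) {r : ℕ}
    (hr : meromorphicOrderAt (A.Lin ⊥ 1) s₀ = (r : WithTop ℤ)) (hr0 : r = 0)
    {χ : G → ℂ} (hχ : χ ∈ Irr G) : meromorphicOrderAt (A.L χ) s₀ = 0 := by
  classical
  have : Fintype G := Fintype.ofFinite G
  have hθ := A.isHeilbronn
  have h1 := A.theta_one hr
  have h2 := A.order_eq hχ (k := 0) (by
    rw [Finset.sum_eq_zero]
    · simp
    · intro g _
      have h3 := hθ.norm_le g
      rw [h1, hr0, Nat.cast_zero, Complex.zero_re] at h3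
      rw [norm_le_zero_iff.mp h3, zero_mul])
  exact_mod_cast h2

/-- irreducible characters are Heilbronn functions -/
lemma irr_heil {χ : G → ℂ} (hχ : χ ∈ Irr G) : IsHeilbronn χ where
  conj g h := Irr.conj hχ g h
  mult H ψ := exists_mult hχ H ψ

/-- the order of a product of L-functions -/
lemma order_prod {s₀ : ℂ} (A : ArtinData G s₀) (m : (G → ℂ) → ℕ) :
    meromorphicOrderAt (fun s => ∏ᶠ χ ∈ Irr G, A.L χ s ^ m χ) s₀
      = ((∑ χ ∈ irrF G, (m χ : ℤ) * A.ord χ : ℤ) : WithTop ℤ) := by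
  classical
  have h1 : (fun s => ∏ᶠ χ ∈ Irr G, A.L χ s ^ m χ)
      = fun s => ∏ χ ∈ irrF G, (A.L χ ^ m χ) s := by
    funext s
    rw [finprod_mem_eq_finite_toFinset_prod _ (irr_finite (G := G))]
    rfl
  rw [h1, meromorphicOrderAt_fun_prod (fun χ hχ => ((A.mero χ (mem_irrF.mp hχ)).1).pow _)]
  rw [WithTop.coe_sum]
  refine Finset.sum_congr rfl fun χ hχ => ?_
  rw [meromorphicOrderAt_pow ((A.mero χ (mem_irrF.mp hχ)).1), ← A.coe_ord (mem_irrF.mp hχ)]
  push_cast
  rfl

/-- If `V` has no nonzero vector fixed by the normal subgroup `D`, then `V` does not contain the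
irreducible characters which are trivial on `D`. -/
lemma rep_pair_zero [Fintype G] {V : Type} [AddCommGroup V] [Module ℚ V] [FiniteDimensional ℚ V]
    (ρ : Representation ℚ G V) (D : Subgroup G) [D.Normal]
    (hD : ∀ v, (∀ d ∈ D, ρ d v = v) → v = 0) {χ : G → ℂ} (hχ : χ ∈ Irr G)
    (htriv : ∀ d ∈ D, χ d = χ 1) :
    ∑ g : G, ((ρ.character g : ℚ) : ℂ) * χ g⁻¹ = 0 := by
  classical
  have hinv : ∀ d ∈ D, ∀ x, χ (d * x) = χ x :=
    Pool.Agent.TH820.const_of_kernel (irr_heil hχ) D htriv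
  -- the sum of the operators is zero
  have hS : ∑ d ∈ el D, ρ d = 0 := by
    refine LinearMap.ext fun v => ?_
    rw [LinearMap.zero_apply]
    apply hD
    intro n hn
    have h5 : ρ n * ∑ d ∈ el D, ρ d = ∑ d ∈ el D, ρ d := by
      rw [Finset.mul_sum]
      refine Finset.sum_equiv (Equiv.mulLeft n) (fun y => ?_) (fun y _ => ?_)
      · rw [mem_el, mem_el]
        exact ⟨fun h => D.mul_mem hn h, fun h => by
          have := D.mul_mem (D.inv_mem hn) h
          simpa using this⟩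
      · rw [← map_mul]
        rfl
    rw [← Module.End.mul_apply, h5]
  have hchar : ∀ g : G, ∑ d ∈ el D, ρ.character (g * d) = 0 := by
    intro g
    have h2 : ∀ d, ρ.character (g * d) = LinearMap.trace ℚ V (ρ g * ρ d) := by
      intro d
      rw [← map_mul]
      rfl
    rw [Finset.sum_congr rfl (fun d _ => h2 d), ← map_sum, ← Finset.mul_sum, hS, mul_zero, map_zero]
  have h1 : ∀ d ∈ el D, ∑ g : G, ((ρ.character g : ℚ) : ℂ) * χ g⁻¹
      = ∑ g : G, ((ρ.character (g * d) : ℚ) : ℂ) * χ g⁻¹ := by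
    intro d hd
    rw [← Equiv.sum_comp (Equiv.mulRight d)]
    refine Finset.sum_congr rfl fun g _ => ?_
    change _ * χ (g * d)⁻¹ = _
    rw [mul_inv_rev, hinv _ (D.inv_mem (mem_el.mp hd))]
    rfl
  have h2 : ((el D).card : ℂ) * ∑ g : G, ((ρ.character g : ℚ) : ℂ) * χ g⁻¹ = 0 := by
    rw [← nsmul_eq_mul, ← Finset.sum_const, Finset.sum_congr rfl h1, Finset.sum_comm]
    refine Finset.sum_eq_zero fun g _ => ?_
    rw [← Finset.sum_mul, ← Rat.cast_sum, hchar g, Rat.cast_zero, zero_mul]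
  exact (mul_eq_zero.mp h2).resolve_left (card_el_ne D)

/-- the set of the `i` for which `V` has no nonzero vector fixed by the commutator subgroup of
`H i` -/
def Free {ι : Type} (H : ι → Subgroup G) {V : Type} [AddCommGroup V] [Module ℚ V]
    (ρ : Representation ℚ G V) : Set ι :=
  {i | ∀ v, (∀ d ∈ ⁅H i, H i⁆, ρ d v = v) → v = 0}

/-- **Motives.** -/
theorem motive_product {s₀ : ℂ} (A : ArtinData G s₀) {r : ℕ}
    (hr : meromorphicOrderAt (A.Lin ⊥ 1) s₀ = (r : WithTop ℤ)) {ι : Type} [Finite ι]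
    {H : ι → Subgroup G} (hc : ∀ i j, i ≠ j → Comm (H i) (H j)) (hH : ⨆ i, H i = ⊤)
    {V : Type} [AddCommGroup V] [Module ℚ V] [FiniteDimensional ℚ V] (ρ : Representation ℚ G V)
    (m : (G → ℂ) → ℕ)
    (hm : ∀ χ ∈ Irr G, ∑ᶠ g : G, ((ρ.character g : ℚ) : ℂ) * χ g⁻¹ = (m χ : ℂ) * (Nat.card G : ℂ))
    {i : ι} (hi : i ∈ Free H ρ) {μ : ℕ} (hμ : Deg μ (H i))
    (hlt : 2 * r < 2 ^ Nat.card (Free H ρ) * μ) :
    meromorphicOrderAt (fun s => ∏ᶠ χ ∈ Irr G, A.L χ s ^ m χ) s₀ = 0 := by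
  classical
  have : Fintype G := Fintype.ofFinite G
  rw [order_prod]
  have hz : ∀ χ ∈ irrF G, (m χ : ℤ) * A.ord χ = 0 := by
    intro χ hχ
    rw [mem_irrF] at hχ
    by_cases hmχ : m χ = 0
    · rw [hmχ, Nat.cast_zero, zero_mul]
    by_cases hord : meromorphicOrderAt (A.L χ) s₀ = 0
    · have h1 := A.coe_ord hχ
      rw [hord] at h1
      have h2 : A.ord χ = 0 := by exact_mod_cast h1
      rw [h2, mul_zero]
    exfalso
    have hsub : Free H ρ ⊆ Seen H χ := by
      intro j hj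
      by_contra hns
      have htriv : ∀ d ∈ ⁅H j, H j⁆, χ d = χ 1 := by
        intro d hd
        by_contra hne
        exact hns ⟨d, hd, hne⟩
      have hn := normal_of_central hc hH j
      have h1 := rep_pair_zero ρ ⁅H j, H j⁆ hj hχ htriv
      have h2 := hm χ hχ
      rw [finsum_eq_sum_of_fintype, h1] at h2
      have hG : (Nat.card G : ℂ) ≠ 0 := by exact_mod_cast Nat.card_pos.ne'
      rcases mul_eq_zero.mp h2.symm with h3 | h3
      · exact hmχ (by exact_mod_cast h3)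
      · exact hG h3
    have h1 := central_product A hr hc hH hχ hord (hsub hi) hμ
    have h2 : Nat.card (Free H ρ) ≤ Nat.card (Seen H χ) :=
      Nat.card_mono (Set.toFinite _) hsub
    have h3 : 2 ^ Nat.card (Free H ρ) * μ ≤ 2 ^ Nat.card (Seen H χ) * μ :=
      Nat.mul_le_mul_right μ (Nat.pow_le_pow_right (by norm_num) h2)
    omega
  rw [Finset.sum_eq_zero hz]
  rfl

end Pool.Agent.Helper503_CP
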