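import Mathlib
import Pool.Agent.Helper503_CP.Mixed

/-!
# Commuting subgroups on whose commutator subgroups a Heilbronn function is not constant
-/

set_option autoImplicit false

namespace Pool.Agent.Helper503_CP

open Pool.Agent.H302R2

/-- orthogonality of linear characters -/
lemma sum_char {K : Type} [Group K] [Fintype K] (ψ χ : K →* ℂˣ) [Decidable (ψ = χ)] :
    ∑ k : K, ((ψ k : ℂˣ) : ℂ) * (((χ k)⁻¹ : ℂˣ) : ℂ) = if ψ = χ then (Nat.card K : ℂ) else 0 := by
  classical
  let f : K →* ℂ := (Units.coeHom ℂ).comp (ψ * χ⁻¹)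
  have h1 : ∀ k, ((ψ k : ℂˣ) : ℂ) * (((χ k)⁻¹ : ℂˣ) : ℂ) = f k := by
    intro k
    simp [f]
  rw [Finset.sum_congr rfl (fun k _ => h1 k), sum_hom_units]
  by_cases h : ψ = χ
  · rw [if_pos h, if_pos, Nat.card_eq_fintype_card]
    ext k
    simp [f, h]
  · rw [if_neg h, if_neg, Nat.cast_zero]
    intro h2
    apply h
    ext k
    have := DFunLike.congr_fun h2 k
    simp only [f, MonoidHom.coe_comp, Function.comp_apply, MonoidHom.mul_apply,
      MonoidHom.inv_apply, MonoidHom.one_apply, map_mul, Units.coeHom_apply] at this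
    rw [Units.val_inv_eq_inv_val] at this
    have h3 : ((χ k : ℂˣ) : ℂ) ≠ 0 := (χ k).ne_zero
    field_simp at this
    exact this

variable {G : Type} [Group G] {ι : Type}

open Classical in
/-- the members of `J` on whose commutator subgroup `φ` is not constant -/
noncomputable def nc (H : ι → Subgroup G) (J : Finset ι) (φ : G → ℂ) : Finset ι :=
  J.filter fun j => ∃ d ∈ ⁅H j, H j⁆, φ d ≠ φ 1

lemma mem_nc {H : ι → Subgroup G} {J : Finset ι} {φ : G → ℂ} {j : ι} :
    j ∈ nc H J φ ↔ j ∈ J ∧ ∃ d ∈ ⁅H j, H j⁆, φ d ≠ φ 1 := by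
  classical
  unfold nc
  rw [Finset.mem_filter]

/-- If the bound is known for the members of a family, then every `j` is seen by exactly one of
them. -/
lemma unique_seen {H : ι → Subgroup G} {J : Finset ι} {w : ι → ℝ} {m : ℝ} (hm0 : 0 < m)
    (hm : ∀ j ∈ J, m ≤ w j) {κ : Type} [Fintype κ] (φ : κ → G → ℂ)
    (hb : ∀ k, ∑ j ∈ nc H J (φ k), w j ≤ (φ k 1).re)
    (hQ : ((∑ k, φ k) 1).re < ∑ j ∈ J, w j + m)
    (hall : ∀ j ∈ J, ∃ d ∈ ⁅H j, H j⁆, (∑ k, φ k) d ≠ (∑ k, φ k) 1) :
    ∀ j ∈ J, ∃! k, j ∈ nc H J (φ k) := by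
  classical
  have h1 : ∀ j ∈ J, 1 ≤ (Finset.univ.filter fun k => j ∈ nc H J (φ k)).card := by
    intro j hj
    rw [Nat.one_le_iff_ne_zero, Finset.card_ne_zero]
    by_contra hemp
    rw [Finset.not_nonempty_iff_eq_empty] at hemp
    obtain ⟨d, hd, hne⟩ := hall j hj
    apply hne
    rw [Finset.sum_apply, Finset.sum_apply]
    refine Finset.sum_congr rfl fun k _ => ?_
    by_contra hk
    have : k ∈ Finset.univ.filter fun k => j ∈ nc H J (φ k) := by
      rw [Finset.mem_filter]
      exact ⟨Finset.mem_univ _, mem_nc.mpr ⟨hj, d, hd, hk⟩⟩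
    rw [hemp] at this
    exact absurd this (Finset.notMem_empty _)
  have h2 : ∑ j ∈ J, ((Finset.univ.filter fun k => j ∈ nc H J (φ k)).card : ℝ) * w j
      = ∑ k, ∑ j ∈ nc H J (φ k), w j := by
    have h3 : ∀ k, ∑ j ∈ nc H J (φ k), w j = ∑ j ∈ J, if j ∈ nc H J (φ k) then w j else 0 := by
      intro k
      rw [← Finset.sum_filter]
      congr 1
      ext j
      rw [Finset.mem_filter]
      exact ⟨fun h => ⟨(mem_nc.mp h).1, h⟩, fun h => h.2⟩
    rw [Finset.sum_congr rfl (fun k _ => h3 k), Finset.sum_comm]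
    refine Finset.sum_congr rfl fun j _ => ?_
    rw [← Finset.sum_filter, Finset.sum_const, nsmul_eq_mul]
  have h3 : ∑ k, ∑ j ∈ nc H J (φ k), w j < ∑ j ∈ J, w j + m := by
    refine lt_of_le_of_lt ?_ hQ
    rw [Finset.sum_apply, Complex.re_sum]
    exact Finset.sum_le_sum fun k _ => hb k
  rw [← h2] at h3
  intro j hj
  have h7 : (Finset.univ.filter fun k => j ∈ nc H J (φ k)).card = 1 := by
    by_contra hne
    have h8 : 2 ≤ (Finset.univ.filter fun k => j ∈ nc H J (φ k)).card := by
      have := h1 j hj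
      omega
    have h9 : ∑ i ∈ J, (w i + if i = j then m else 0)
        ≤ ∑ i ∈ J, ((Finset.univ.filter fun k => i ∈ nc H J (φ k)).card : ℝ) * w i := by
      refine Finset.sum_le_sum fun i hi => ?_
      have hw := hm i hi
      by_cases hij : i = j
      · subst hij
        rw [if_pos rfl]
        have h10 : (2 : ℝ) ≤ (Finset.univ.filter fun k => i ∈ nc H J (φ k)).card := by
          exact_mod_cast h8
        nlinarith
      · rw [if_neg hij, add_zero]
        have h10 : (1 : ℝ) ≤ (Finset.univ.filter fun k => i ∈ nc H J (φ k)).card := by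
          exact_mod_cast h1 i hi
        nlinarith
    rw [Finset.sum_add_distrib, Finset.sum_ite_eq' J j, if_pos hj] at h9
    linarith
  obtain ⟨k, hk⟩ := Finset.card_eq_one.mp h7
  refine ⟨k, ?_, fun k' hk' => ?_⟩
  · have : k ∈ Finset.univ.filter fun k => j ∈ nc H J (φ k) := by rw [hk]; simp
    exact (Finset.mem_filter.mp this).2
  · have : k' ∈ Finset.univ.filter fun k => j ∈ nc H J (φ k) := by
      rw [Finset.mem_filter]; exact ⟨Finset.mem_univ _, hk'⟩
    rw [hk] at this
    exact Finset.mem_singleton.mp this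

/-- the functional `φ ↦ φ d - φ 1` -/
noncomputable def dif (d : G) : (G → ℂ) →ₗ[ℂ] ℂ :=
  (LinearMap.proj d : (G → ℂ) →ₗ[ℂ] ℂ) - LinearMap.proj 1

lemma dif_apply (d : G) (φ : G → ℂ) : dif d φ = φ d - φ 1 := rfl

variable [Finite G]

/-- The functionals `φ ↦ φ d - φ 1`, `d` in the commutator subgroup of one of the `H j`. -/
lemma stable_count {H : ι → Subgroup G} {J : Finset ι} {w : ι → ℝ} {m : ℝ} (hm0 : 0 < m)
    (hm : ∀ j ∈ J, m ≤ w j) {S : Subgroup G} (hHS : ∀ j ∈ J, H j ≤ S)
    (hb : ∀ φ : G → ℂ, IsHeilbronn (res S φ) → ∑ j ∈ nc H J φ, w j ≤ (φ 1).re) :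
    Stable (res S) (fun p : {p : ι × G // p.1 ∈ J ∧ p.2 ∈ ⁅H p.1, H p.1⁆} => dif p.1.2)
      (fun φ => (φ 1).re < ∑ j ∈ J, w j + m ∧ ∀ j ∈ J, ∃ d ∈ ⁅H j, H j⁆, φ d ≠ φ 1) := by
  constructor
  · rintro φ φ' h ⟨⟨j, d⟩, hj, hd⟩
    rw [dif_apply, dif_apply]
    have h1 := congrFun h ⟨d, hHS j hj (bracket_le _ hd)⟩
    have h2 := congrFun h 1
    rw [res_apply, res_apply] at h1 h2
    simp only [OneMemClass.coe_one] at h1 h2
    rw [h1, h2]
  · rintro κ _ φ hφ ⟨hQ1, hQ2⟩ ⟨⟨j, d⟩, hj, hd⟩ k k' hkk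
    by_contra hcon
    push Not at hcon
    have h1 := unique_seen hm0 hm φ (fun k => hb _ (hφ k)) hQ1 hQ2
    apply hkk
    refine (h1 j hj).unique (mem_nc.mpr ⟨hj, d, hd, ?_⟩) (mem_nc.mpr ⟨hj, d, hd, ?_⟩)
    · have := hcon.1
      rw [dif_apply] at this
      exact sub_ne_zero.mp this
    · have := hcon.2
      rw [dif_apply] at this
      exact sub_ne_zero.mp this
  · rintro κ _ φ hφ ⟨hQ1, hQ2⟩ k hk
    constructor
    · refine lt_of_le_of_lt ?_ hQ1
      rw [Finset.sum_apply, Complex.re_sum]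
      exact Finset.single_le_sum (f := fun l => (φ l 1).re) (fun l _ => heil_nonneg (hφ l))
        (Finset.mem_univ k)
    · intro j hj
      obtain ⟨d, hd, hne⟩ := hQ2 j hj
      refine ⟨d, hd, fun heq => hne ?_⟩
      rw [Finset.sum_apply, Finset.sum_apply]
      refine Finset.sum_congr rfl fun l _ => ?_
      by_cases hl : l = k
      · rw [hl, heq]
      · have := hk l hl ⟨⟨j, d⟩, hj, hd⟩
        rw [dif_apply] at this
        exact sub_eq_zero.mp this

/-- `F` minus the sum of the `μ j ψ j` is a Heilbronn function. -/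
lemma rest_heil {H : ι → Subgroup G} {J : Finset ι} {μ : ι → ℕ} {L S : Subgroup G}
    (hb : ∀ φ : G → ℂ, IsHeilbronn (res S φ) → ∑ j ∈ nc H J φ, (μ j : ℝ) ≤ (φ 1).re)
    {F : G → ℂ} (hFL : IsHeilbronn (res L F))
    (hΘ : IsHeilbronn (fun p : L × S => res S (fun g => F (p.1 * g)) p.2))
    (ψ : J → (L →* ℂˣ)) (d : J → G)
    (hd : ∀ j : J, d j ∈ ⁅H j, H j⁆) (hne : ∀ j : J, F (d j) ≠ F 1)
    (hψ : ∀ (j : J) (x : L), F (x * d j) - F x = (ψ j x : ℂˣ) * (F (d j) - F 1)) :
    IsHeilbronn (fun x : L => F x - ∑ j : J, (μ j : ℂ) * ((ψ j x : ℂˣ) : ℂ)) := by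
  classical
  constructor
  · intro g h
    have h1 := hFL.conj g h
    rw [res_apply, res_apply] at h1
    rw [h1]
    congr 1
    refine Finset.sum_congr rfl fun j _ => ?_
    rw [map_mul, map_mul, map_inv, mul_right_comm, mul_inv_cancel, one_mul]
  · intro K χ
    have : Fintype K := Fintype.ofFinite K
    have hK : (Nat.card K : ℂ) ≠ 0 := by exact_mod_cast Nat.card_pos.ne'
    -- the `χ`-part
    let Θ : K → (G → ℂ) := fun b g => F (((b : L) : G) * g)
    have hH : IsHeilbronn (fun p : K × S => res S (Θ p.1) p.2) :=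
      heil_comp (ev := res S) K.subtype (fun (x : L) (g : G) => F (x * g)) hΘ
    have hφ := part_heil (res S) Θ hH χ
    obtain ⟨n, hn⟩ := hφ.exists_deg
    have hn' : part Θ χ 1 = n := hn
    have hbn := hb _ hφ
    rw [hn', Complex.natCast_re] at hbn
    -- the indices with `ψ j = χ` on `K` are seen by the `χ`-part
    have hseen : ∀ j : J, (ψ j).comp K.subtype = χ → (j : ι) ∈ nc H J (part Θ χ) := by
      intro j hj
      refine mem_nc.mpr ⟨j.2, d j, hd j, ?_⟩
      rw [← sub_ne_zero]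
      have hval : part Θ χ (d j) - part Θ χ 1 = F (d j) - F 1 := by
        unfold part
        simp only [Pi.smul_apply, Finset.sum_apply, smul_eq_mul]
        rw [← mul_sub, ← Finset.sum_sub_distrib]
        have h1 : ∀ b : K, (((χ b)⁻¹ : ℂˣ) : ℂ) * Θ b (d j) - (((χ b)⁻¹ : ℂˣ) : ℂ) * Θ b 1
            = F (d j) - F 1 := by
          intro b
          have h2 := hψ j b
          have h3 : ψ j b = χ b := DFunLike.congr_fun hj b
          rw [← mul_sub]
          change _ * (F (((b : L) : G) * d j) - F (((b : L) : G) * 1)) = _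
          rw [mul_one, h2, h3, ← mul_assoc, Units.val_inv_eq_inv_val, inv_mul_cancel₀, one_mul]
          exact Units.ne_zero _
        rw [Finset.sum_congr rfl (fun b _ => h1 b), Finset.sum_const, Finset.card_univ,
          nsmul_eq_mul, ← mul_assoc, Nat.card_eq_fintype_card, inv_mul_cancel₀, one_mul]
        rw [← Nat.card_eq_fintype_card]; exact hK
      rw [hval]
      exact sub_ne_zero.mpr (hne j)
    have hle : ∑ j : J, (if (ψ j).comp K.subtype = χ then μ j else 0) ≤ n := by
      have h1 : ((∑ j : J, (if (ψ j).comp K.subtype = χ then μ j else 0) : ℕ) : ℝ) ≤ n := by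
        refine le_trans ?_ hbn
        push_cast
        have h2 : ∑ j ∈ nc H J (part Θ χ), (μ j : ℝ)
            = ∑ j : J, if (j : ι) ∈ nc H J (part Θ χ) then (μ j : ℝ) else 0 := by
          rw [← Finset.sum_filter]
          have h3 : nc H J (part Θ χ) = (Finset.univ.filter fun j : J =>
              (j : ι) ∈ nc H J (part Θ χ)).map (Function.Embedding.subtype _) := by
            ext j
            simp only [Finset.mem_map, Finset.mem_filter, Finset.mem_univ, true_and,
              Function.Embedding.coe_subtype]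
            constructor
            · intro h3
              exact ⟨⟨j, (mem_nc.mp h3).1⟩, h3, rfl⟩
            · rintro ⟨j', h3, rfl⟩
              exact h3
          conv_lhs => rw [h3]
          rw [Finset.sum_map]
          rfl
        rw [h2]
        refine Finset.sum_le_sum fun j _ => ?_
        by_cases hj : (ψ j).comp K.subtype = χ
        · rw [if_pos hj, if_pos (hseen j hj)]
        · rw [if_neg hj]
          split_ifs
          · exact Nat.cast_nonneg _
          · exact le_rfl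
      exact_mod_cast h1
    refine ⟨n - ∑ j : J, (if (ψ j).comp K.subtype = χ then μ j else 0), ?_⟩
    rw [finsum_eq_sum_of_fintype]
    simp only [sub_mul, Finset.sum_sub_distrib]
    have h1 : ∑ k : K, F ((k : L) : G) * (((χ k)⁻¹ : ℂˣ) : ℂ) = n * Nat.card K := by
      have h2 : part Θ χ 1 = (Nat.card K : ℂ)⁻¹ * ∑ k : K, F ((k : L) : G) * (((χ k)⁻¹ : ℂˣ) : ℂ) := by
        unfold part
        simp only [Pi.smul_apply, Finset.sum_apply, smul_eq_mul]
        congr 1
        refine Finset.sum_congr rfl fun k _ => ?_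
        change _ * F (((k : L) : G) * 1) = _
        rw [mul_one, mul_comm]
      rw [hn'] at h2
      rw [h2]
      field_simp
    have h2 : ∑ k : K, (∑ j : J, (μ j : ℂ) * ((ψ j k : ℂˣ) : ℂ)) * (((χ k)⁻¹ : ℂˣ) : ℂ)
        = ∑ j : J, (μ j : ℂ) * ∑ k : K,
          (((ψ j).comp K.subtype k : ℂˣ) : ℂ) * (((χ k)⁻¹ : ℂˣ) : ℂ) := by
      simp_rw [Finset.mul_sum]
      rw [Finset.sum_comm]
      refine Finset.sum_congr rfl fun k _ => ?_
      rw [Finset.sum_mul]
      refine Finset.sum_congr rfl fun j _ => ?_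
      rw [mul_assoc]
      rfl
    rw [h1, h2, Nat.cast_sub hle]
    simp only [sum_char]
    push_cast
    rw [sub_mul, Finset.sum_mul]
    congr 1
    refine Finset.sum_congr rfl fun j _ => ?_
    split_ifs <;> simp

/-- The degree of a Heilbronn function is at least the sum of the `μ i` over the commuting subgroups
on whose commutator subgroup it is not constant. -/
theorem count {H : ι → Subgroup G} (hc : ∀ i j, i ≠ j → Comm (H i) (H j)) {μ : ι → ℕ}
    (hμ : ∀ i, Deg (μ i) (H i)) (J : Finset ι) :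
    ∀ (S : Subgroup G), (∀ i ∈ J, H i ≤ S) → ∀ F : G → ℂ, IsHeilbronn (res S F) →
      (∀ i ∈ J, ∃ d ∈ ⁅H i, H i⁆, F d ≠ F 1) → ∑ i ∈ J, (μ i : ℝ) ≤ (F 1).re := by
  classical
  induction J using Finset.strongInduction with
  | H J ih =>
    intro S hJS F hF hne
    rcases J.eq_empty_or_nonempty with rfl | hJne
    · simpa using heil_nonneg hF
    obtain ⟨i, hi, himin⟩ := J.exists_min_image μ hJne
    by_contra hlt
    push Not at hlt
    set J₀ := J.erase i with hJ₀
    have hcard : ∑ j ∈ J, (μ j : ℝ) = ∑ j ∈ J₀, (μ j : ℝ) + μ i :=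
      (Finset.sum_erase_add J _ hi).symm
    have hsub : J₀ ⊂ J := Finset.erase_ssubset hi
    let S' : Subgroup G := Subgroup.centralizer (H i : Set G) ⊓ S
    have hS'S : S' ≤ S := inf_le_right
    have hHS' : ∀ j ∈ J₀, H j ≤ S' := fun j hj =>
      le_inf (comm_iff.mp (hc i j (Finset.ne_of_mem_erase hj).symm))
        (hJS j (Finset.mem_of_mem_erase hj))
    have hcomm : Comm (H i) S' := comm_iff.mpr inf_le_left
    have hb : ∀ φ : G → ℂ, IsHeilbronn (res S' φ) →
        ∑ j ∈ nc H J₀ φ, (μ j : ℝ) ≤ (φ 1).re := by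
      intro φ hφ
      refine ih (nc H J₀ φ) ?_ S' (fun j hj => hHS' j (mem_nc.mp hj).1) φ hφ
        (fun j hj => (mem_nc.mp hj).2)
      exact lt_of_le_of_lt (fun j hj => (mem_nc.mp hj).1) hsub
    obtain ⟨r, hr⟩ := hF.exists_deg
    have hr' : F 1 = r := hr
    have hne₀ : ∀ j ∈ J₀, ∃ d ∈ ⁅H j, H j⁆, F d ≠ F 1 := fun j hj =>
      hne j (Finset.mem_of_mem_erase hj)
    -- the degree is at least the sum over the other members
    have hF0 := hb F (heil_res hS'S hF)
    have hnc : nc H J₀ F = J₀ := by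
      ext j
      exact ⟨fun h => (mem_nc.mp h).1, fun h => mem_nc.mpr ⟨h, hne₀ j h⟩⟩
    rw [hnc] at hF0
    have hμi : (0 : ℝ) < μ i := by
      rw [hcard] at hlt
      linarith
    have hF1 : (F 1).re < ∑ j ∈ J₀, (μ j : ℝ) + μ i := by
      rw [← hcard]; exact hlt
    have hS := stable_count (w := fun j => (μ j : ℝ)) hμi
      (fun j hj => by exact_mod_cast himin j (Finset.mem_of_mem_erase hj)) hHS' hb
    have hΘ := heil_prod hcomm (hJS i hi) hS'S hF
    have hg := glue hS (fun (x : H i) (g : G) => F (x * g)) hΘ (by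
      simp only [Subgroup.coe_one, one_mul]
      exact ⟨hF1, hne₀⟩)
    choose d hd hdne using fun j : J₀ => hne₀ j j.2
    choose ψ hψ using fun j : J₀ => hg ⟨⟨j, d j⟩, j.2, hd j⟩
    have hψ' : ∀ (j : J₀) (x : H i), F (x * d j) - F x = (ψ j x : ℂˣ) * (F (d j) - F 1) := by
      intro j x
      have h1 := hψ j x
      rw [dif_apply, dif_apply] at h1
      simpa using h1
    have hη := rest_heil (μ := μ) hb (heil_res (hJS i hi) hF) hΘ ψ d hd hdne hψ'
    have hsum : ∑ j : J₀, (μ j : ℝ) = ∑ j ∈ J₀, (μ j : ℝ) :=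
      Finset.sum_coe_sort J₀ (fun j => (μ j : ℝ))
    obtain ⟨e, he⟩ := hη.exists_deg
    have he' : (r : ℝ) - ∑ j ∈ J₀, (μ j : ℝ) = e := by
      simp only [Subgroup.coe_one, map_one, Units.val_one, mul_one] at he
      rw [hr'] at he
      rw [← hsum]
      exact_mod_cast he
    have helt : e < μ i := by
      rw [hr', Complex.natCast_re] at hF1
      have : (e : ℝ) < μ i := by rw [← he']; linarith
      exact_mod_cast this
    obtain ⟨z, hz, hzne⟩ := hne i hi
    have hz' : (⟨z, bracket_le _ hz⟩ : H i) ∈ commutator (H i) := by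
      have hz2 := hz
      rw [← Subgroup.map_subtype_commutator] at hz2
      obtain ⟨d', hd', hdd⟩ := hz2
      have : (⟨z, bracket_le _ hz⟩ : H i) = d' := Subtype.ext hdd.symm
      rw [this]; exact hd'
    have h1 := hμ i _ hη e helt he ⟨z, bracket_le _ hz⟩ hz'
    have h2 : ∀ j : J₀, ψ j ⟨z, bracket_le _ hz⟩ = 1 := fun j => char_bracket (ψ j) z hz
    simp only [h2, map_one, Units.val_one] at h1
    apply hzne
    have h3 := sub_left_injective h1
    simpa using h3

end Pool.Agent.Helper503_CP
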