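import Mathlib
import Pool.Agent.Helper503_CP.Count
import Pool.Agent.Helper503_CP.CharA
import Pool.Agent.TH820.LayC

/-!
# Layers generated by commuting subgroups, counted along the orbits of the group
-/

set_option autoImplicit false
set_option linter.unusedSectionVars false

namespace Pool.Agent.Helper503_CP

open Pool.Agent.H302R2 Pool.Agent.H302R5 Pool.Agent.H302R6 Pool.Agent.H302R10
  Pool.Agent.H417R3.HB Pool.Agent.H541R3.ART Pool.Agent.W295.Sp Pool.Agent.W295.Cl
  Pool.Agent.TH820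

/-- The subgroup `N` of `Q` is normal and generated by the commutator subgroups of finitely many
pairwise commuting subgroups `X i` with weights `μ i`, such that `r` is less than the sum of the
weights over every nonempty set of indices that is closed under conjugation by elements of `Q`. -/
def LayW (r : ℕ) {Q : Type} [Group Q] (N : Subgroup Q) : Prop :=
  N.Normal ∧ ∃ (k : ℕ) (X : Fin k → Subgroup Q) (μ : Fin k → ℕ),
    (∀ i j, i ≠ j → ∀ a ∈ X i, ∀ b ∈ X j, a * b = b * a) ∧ N = ⨆ i, ⁅X i, X i⁆ ∧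
    (∀ i, Weight (μ i) (X i)) ∧
    ∀ I : Finset (Fin k), I.Nonempty →
      (∀ i ∈ I, ∀ g : Q, ∀ j, X j = (X i).map (MulAut.conj g).toMonoidHom → j ∈ I) →
      r < ∑ i ∈ I, μ i

/-- `N` is a normal subgroup of `G` obtained from the trivial subgroup by finitely many steps
`M ≤ N` where `N / M` satisfies `LayW r` or `Orb r` in `G / M`. -/
inductive BuiltW (r : ℕ) {G : Type} [Group G] : Subgroup G → Prop
  | bot : BuiltW r ⊥
  | lay (M N : Subgroup G) [M.Normal] (hM : BuiltW r M) (hMN : M ≤ N)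
      (h : LayW r (N.map (QuotientGroup.mk' M))) : BuiltW r N
  | orb (M N : Subgroup G) [M.Normal] (hM : BuiltW r M) (hMN : M ≤ N)
      (h : Orb r (N.map (QuotientGroup.mk' M))) : BuiltW r N

/-- `N` is a normal subgroup of `G` obtained from the trivial subgroup by finitely many steps
`M ≤ N` where either `N / M` is abelian and `N` is normal in `G`, or `N / M` satisfies `LayW r` in
`G / M`. -/
inductive BuiltSW (r : ℕ) {G : Type} [Group G] : Subgroup G → Prop
  | bot : BuiltSW r ⊥
  | abel (M N : Subgroup G) [M.Normal] [N.Normal] (hM : BuiltSW r M) (hMN : M ≤ N)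
      (h : ∀ a ∈ N, ∀ b ∈ N, a * b * a⁻¹ * b⁻¹ ∈ M) : BuiltSW r N
  | lay (M N : Subgroup G) [M.Normal] (hM : BuiltSW r M) (hMN : M ≤ N)
      (h : LayW r (N.map (QuotientGroup.mk' M))) : BuiltSW r N

section lay

variable {Q : Type} [Group Q] [Finite Q]

lemma layW_ker {r : ℕ} {N : Subgroup Q} (hN : LayW r N) {θ : Q → ℂ} (hθ : IsHeilbronn θ)
    {s : ℕ} (hs : s ≤ r) (h1 : θ 1 = s) : ∀ y ∈ N, θ y = θ 1 := by
  classical
  obtain ⟨-, k, X, μ, hX, rfl, hw, hI⟩ := hN
  have hc : ∀ i j, i ≠ j → Comm (X i) (X j) := hX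
  -- the set of the indices on whose commutator subgroup `θ` is not constant
  let I : Finset (Fin k) := Finset.univ.filter fun i => ∃ d ∈ ⁅X i, X i⁆, θ d ≠ θ 1
  have hmem : ∀ i, i ∈ I ↔ ∃ d ∈ ⁅X i, X i⁆, θ d ≠ θ 1 := fun i => by simp [I]
  have hemp : I = ∅ := by
    by_contra hne
    have h2 := hI I (Finset.nonempty_iff_ne_empty.mpr hne) (by
      intro i hi g j hj
      rw [hmem] at hi ⊢
      obtain ⟨d, hd, hdne⟩ := hi
      refine ⟨g * d * g⁻¹, ?_, ?_⟩
      · rw [hj, ← Subgroup.map_commutator]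
        exact ⟨d, hd, rfl⟩
      · rw [hθ.conj]; exact hdne)
    have h3 := count hc (fun i => (hw i).deg) I ⊤ (fun _ _ => le_top) θ
      (hθ.comp (⊤ : Subgroup Q).subtype) (fun i hi => (hmem i).mp hi)
    rw [h1, Complex.natCast_re] at h3
    have h4 : ∑ i ∈ I, μ i ≤ s := by exact_mod_cast h3
    omega
  have hD : ∀ i, ∀ d ∈ ⁅X i, X i⁆, θ d = θ 1 := by
    intro i d hd
    by_contra hne
    have : i ∈ I := (hmem i).mpr ⟨d, hd, hne⟩
    rw [hemp] at this
    exact absurd this (Finset.notMem_empty _)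
  have key : ∀ J : Finset (Fin k), ∀ y ∈ (⨆ i ∈ J, ⁅X i, X i⁆ : Subgroup Q), θ y = θ 1 := by
    intro J
    induction J using Finset.induction_on with
    | empty =>
      intro y hy
      have : y = 1 := by simpa using hy
      rw [this]
    | insert i J hi ih =>
      intro y hy
      rw [Finset.iSup_insert] at hy
      have hcomm : Comm ⁅X i, X i⁆ (⨆ j ∈ J, ⁅X j, X j⁆) := by
        rw [comm_iff]
        refine iSup₂_le fun j hj => comm_iff.mp fun a ha b hb => ?_
        exact hX i j (fun h => hi (h ▸ hj)) a (bracket_le _ ha) b (bracket_le _ hb)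
      obtain ⟨a, ha, b, hb, rfl⟩ := mem_sup_iff hcomm hy
      rw [hθ.mul_of_comm (hcomm a ha b hb) (ih b hb), hD i a ha]
  intro y hy
  refine key Finset.univ y ?_
  simpa using hy

theorem layW_const {r : ℕ} {N : Subgroup Q} (hN : LayW r N) {θ : Q → ℂ}
    (hθ : IsHeilbronn θ) {s : ℕ} (hs : s ≤ r) (h1 : θ 1 = s) :
    ∀ y ∈ N, ∀ x, θ (x * y) = θ x := by
  have h2 := layW_ker hN hθ hs h1
  have hn : N.Normal := hN.1
  intro y hy x
  have h3 := const_of_kernel hθ N h2 (x * y * x⁻¹) (hn.conj_mem y hy x) x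
  rwa [inv_mul_cancel_right] at h3

lemma BuiltW.normal {r : ℕ} {G : Type} [Group G] {N : Subgroup G} (hN : BuiltW r N) :
    N.Normal := by
  cases hN with
  | bot => exact Subgroup.normal_bot
  | lay M _ _ hMN h => exact normal_of_map hMN h.1
  | orb M _ _ hMN h => exact normal_of_map hMN h.1

/-- **Invariance.** -/
theorem builtW_const {r : ℕ} {N : Subgroup Q} (hN : BuiltW r N) {θ : Q → ℂ}
    (hθ : IsHeilbronn θ) {s : ℕ} (hs : s ≤ r) (h1 : θ 1 = s) :
    ∀ y ∈ N, ∀ x, θ (y * x) = θ x := by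
  have step : ∀ (M N : Subgroup Q) [M.Normal] (hMN : M ≤ N) (hNn : N.Normal)
      (ih : ∀ y ∈ M, ∀ x, θ (y * x) = θ x)
      (hc : ∀ η : Q ⧸ M → ℂ, IsHeilbronn η → η 1 = s →
        ∀ y ∈ N.map (QuotientGroup.mk' M), ∀ x, η (x * y) = η x),
      ∀ y ∈ N, ∀ x, θ (y * x) = θ x := by
    intro M N hMn hMN hNn ih hc
    have hinv : ∀ g : Q, ∀ n ∈ M, θ (g * n) = θ g := by
      intro g n hn
      have h2 : g * n = (g * n * g⁻¹) * g := by group
      rw [h2, ih _ (hMn.conj_mem n hn g)]
    have hd := hθ.descend M hinv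
    have hmk : ∀ g : Q, descend M θ (QuotientGroup.mk' M g) = θ g := fun g => descend_mk hinv g
    have h2 := hc _ hd (by
      have := hmk 1
      rw [map_one] at this
      rw [this, h1])
    intro y hy x
    have h3 := h2 (QuotientGroup.mk' M (x⁻¹ * y * x)) ⟨_, by
      have := hNn.conj_mem y hy x⁻¹
      rwa [inv_inv] at this, rfl⟩ (QuotientGroup.mk' M x)
    rw [← map_mul, hmk, hmk] at h3
    have h4 : x * (x⁻¹ * y * x) = y * x := by group
    rwa [h4] at h3
  induction hN with
  | bot =>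
    intro y hy x
    rw [Subgroup.mem_bot] at hy
    rw [hy, one_mul]
  | lay M N hM hMN h ih =>
    exact step M N hMN (normal_of_map hMN h.1) ih
      (fun η hη h1 => layW_const h hη hs h1)
  | orb M N hM hMN h ih =>
    exact step M N hMN (normal_of_map hMN h.1) ih
      (fun η hη h1 => orb_const h hη hs h1)

end lay

section mono

/-- one nonabelian layer -/
lemma layW_mult {r : ℕ} {G : Type} [Group G] [Finite G] {θ : G → ℂ} (hθ : IsHeilbronn θ) {s : ℕ}
    (hs : s ≤ r) (h1 : θ 1 = s) (M N H : Subgroup G) [M.Normal] [N.Normal] (hMH : M ≤ H)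
    (hL : LayW r (N.map (QuotientGroup.mk' M)))
    {a b : ℕ} (ha : ∑ᶠ h : H, θ h = a * Nat.card H)
    (hb : ∑ᶠ h : (H ⊔ N : Subgroup G), θ h = b * Nat.card (H ⊔ N : Subgroup G)) : b = a := by
  classical
  have : Fintype G := Fintype.ofFinite _
  let π : G →* G ⧸ M := QuotientGroup.mk' M
  have hπ : Function.Surjective π := QuotientGroup.mk'_surjective M
  have hker : π.ker = M := QuotientGroup.ker_mk' M
  have hθ' := push_isHeilbronn hπ hθ
  obtain ⟨r', hr'r, hr'⟩ := push_one_nat_le hπ hθ h1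
  have hNn : (N.map π).Normal := Subgroup.Normal.map inferInstance π hπ
  have hc : ∀ n ∈ N.map π, ∀ x, push π θ (n * x) = push π θ x := by
    intro n hn x
    have h2 : x⁻¹ * n * x ∈ N.map π := by
      have := hNn.conj_mem n hn x⁻¹
      rwa [inv_inv] at this
    have h3 := layW_const hL hθ' (hr'r.trans hs) hr' _ h2 x
    have h4 : x * (x⁻¹ * n * x) = n * x := by group
    rwa [h4] at h3
  have hcomap : ∀ U : Subgroup G, M ≤ U → (U.map π).comap π = U := by
    intro U hU
    exact Subgroup.comap_map_eq_self (by rw [hker]; exact hU)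
  have hsup : (H.map π) ⊔ (N.map π) = (H ⊔ N : Subgroup G).map π := (Subgroup.map_sup H N π).symm
  have hA : ∑ᶠ y : (H.map π : Subgroup (G ⧸ M)), push π θ y = a * Nat.card (H.map π) := by
    apply push_mult hπ
    rw [hcomap H hMH]
    exact ha
  have hB : ∑ᶠ y : ((H.map π) ⊔ (N.map π) : Subgroup (G ⧸ M)), push π θ y
      = b * Nat.card ((H.map π) ⊔ (N.map π) : Subgroup (G ⧸ M)) := by
    rw [hsup]
    apply push_mult hπ
    rw [hcomap _ (hMH.trans le_sup_left)]
    exact hb
  exact mult_sup_of_const (N.map π) (H.map π) hc hA hB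

theorem builtSW_mono {r : ℕ} {G : Type} [Group G] [Finite G]
    (hG : BuiltSW r (⊤ : Subgroup G)) : Mono r G := by
  classical
  intro θ hθ s hs h1 H a b ha hb
  have key : ∀ N : Subgroup G, BuiltSW r N → ∀ c : ℕ,
      ∑ᶠ h : (H ⊔ N : Subgroup G), θ h = c * Nat.card (H ⊔ N : Subgroup G) → c ≤ b := by
    intro N hN
    induction hN with
    | bot =>
      intro c hc
      rw [sup_bot_eq, hb] at hc
      have hH : (Nat.card H : ℂ) ≠ 0 := by exact_mod_cast Nat.card_pos.ne'
      have := mul_right_cancel₀ hH hc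
      have h1 : b = c := by exact_mod_cast this
      exact h1.ge
    | abel M N hM hMN h ih =>
      intro c hc
      obtain ⟨c', hc'⟩ := hθ.mult (H ⊔ M) 1
      simp only [MonoidHom.one_apply, inv_one, Units.val_one, mul_one] at hc'
      have h2 := ih c' hc'
      have hsup : (H ⊔ M) ⊔ N = H ⊔ N := by
        rw [sup_assoc, sup_eq_right.mpr hMN]
      rw [← hsup] at hc
      exact (ded_abel hθ M N (H ⊔ M) h le_sup_right hc' hc).trans h2
    | lay M N hM hMN h ih =>
      intro c hc
      obtain ⟨c', hc'⟩ := hθ.mult (H ⊔ M) 1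
      simp only [MonoidHom.one_apply, inv_one, Units.val_one, mul_one] at hc'
      have h2 := ih c' hc'
      have hsup : (H ⊔ M) ⊔ N = H ⊔ N := by
        rw [sup_assoc, sup_eq_right.mpr hMN]
      rw [← hsup] at hc
      have hNn := normal_of_map hMN h.1
      exact (layW_mult hθ hs h1 M N (H ⊔ M) le_sup_right h hc' hc).le.trans h2
  apply key ⊤ hG
  rw [sup_top_eq, Nat.card_congr Subgroup.topEquiv.toEquiv, ← ha]
  exact finsum_eq_of_bijective (fun g : (⊤ : Subgroup G) => (g : G))
    Subgroup.topEquiv.bijective (fun g => rfl)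

/-- **Dedekind**, in general form. -/
theorem ded_builtW {G : Type} [Group G] [Finite G] {s₀ : ℂ} (A : ArtinData G s₀) {r : ℕ}
    (hr : meromorphicOrderAt (A.Lin ⊥ 1) s₀ = (r : WithTop ℤ)) (N : Subgroup G) [N.Normal]
    (hN : BuiltW r N) (L M : Subgroup G) (hLM : L ≤ M)
    (hM : BuiltSW r (⊤ : Subgroup (M ⧸ N.subgroupOf M))) (ρ : M →* ℂˣ) :
    meromorphicOrderAt (A.Lin M ρ) s₀
      ≤ meromorphicOrderAt (A.Lin L (ρ.comp (Subgroup.inclusion hLM))) s₀ := by
  classical
  have hθ := A.isHeilbronn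
  have h1 := A.theta_one hr
  have hc := builtW_const hN hθ le_rfl h1
  obtain ⟨a, ha⟩ := hθ.mult M ρ
  obtain ⟨b, hb⟩ := hθ.mult L (ρ.comp (Subgroup.inclusion hLM))
  rw [order_of_multQ A M ρ ha, order_of_multQ A L _ hb]
  have key : a ≤ b := by
    have hθM := hθ.comp M.subtype
    refine ded_top' hθM le_rfl (by simpa using h1) (N.subgroupOf M) (fun n hn x => ?_)
      (builtSW_mono hM) (L.subgroupOf M) ρ ha (b := b) ?_
    · rw [Subgroup.mem_subgroupOf] at hn
      exact hc _ hn _
    · let e := Subgroup.subgroupOfEquivOfLe hLM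
      rw [Nat.card_congr e.toEquiv, ← hb]
      refine finsum_eq_of_bijective (fun g => e g) e.bijective fun g => ?_
      rfl
  exact_mod_cast key

/-- **Artin**, in general form. -/
theorem artin_builtW {G : Type} [Group G] [Finite G] {s₀ : ℂ} (A : ArtinData G s₀) {r : ℕ}
    (hr : meromorphicOrderAt (A.Lin ⊥ 1) s₀ = (r : WithTop ℤ)) (N : Subgroup G)
    (hN : BuiltW r N) (χ : G → ℂ) (hχ : χ ∈ Irr G) :
    ((∃ n ∈ N, χ n ≠ χ 1) → meromorphicOrderAt (A.L χ) s₀ = 0) ∧
    (IsMonomialChar χ → 0 ≤ meromorphicOrderAt (A.L χ) s₀) := by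
  classical
  have : Fintype G := Fintype.ofFinite G
  have hθ := A.isHeilbronn
  have h1 := A.theta_one hr
  have hNn := hN.normal
  have hc := builtW_const hN hθ le_rfl h1
  constructor
  · rintro ⟨t, htN, ht⟩
    have h2 := pair_zero hχ N hc (x := t) htN ht
    have h3 := A.order_eq hχ (k := 0) (by rw [h2]; simp)
    exact_mod_cast h3
  · intro hm
    obtain ⟨k, hk⟩ := pair_monomial hθ hm
    have h3 := A.order_eq hχ (k := (k : ℤ)) (by rw [hk]; push_cast; rfl)
    rw [h3]
    exact_mod_cast Int.natCast_nonneg k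

end mono

end Pool.Agent.Helper503_CP
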