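import Mathlib
import Pool.Agent.Helper503_CP.Layers

/-!
# Artin motives and layers
-/

set_option autoImplicit false

namespace Pool.Agent.Helper503_CP

open Pool.Agent.H302R2 Pool.Agent.H541R3.ART

/-- **Motives.** -/
theorem motive_layers {G : Type} [Group G] [Finite G] {s₀ : ℂ} (A : ArtinData G s₀) {r : ℕ}
    (hr : meromorphicOrderAt (A.Lin ⊥ 1) s₀ = (r : WithTop ℤ)) (N : Subgroup G)
    (hN : BuiltW r N)
    {V : Type} [AddCommGroup V] [Module ℚ V] [FiniteDimensional ℚ V] (ρ : Representation ℚ G V)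
    (m : (G → ℂ) → ℕ)
    (hm : ∀ χ ∈ Irr G, ∑ᶠ g : G, ((ρ.character g : ℚ) : ℂ) * χ g⁻¹ = (m χ : ℂ) * (Nat.card G : ℂ)) :
    ((∀ v, (∀ n ∈ N, ρ n v = v) → v = 0) →
      meromorphicOrderAt (fun s => ∏ᶠ χ ∈ Irr G, A.L χ s ^ m χ) s₀ = 0) ∧
    ((∀ χ ∈ Irr G, (∀ n ∈ N, χ n = χ 1) → IsMonomialChar χ) →
      0 ≤ meromorphicOrderAt (fun s => ∏ᶠ χ ∈ Irr G, A.L χ s ^ m χ) s₀) := by
  classical
  have : Fintype G := Fintype.ofFinite G
  have hart := fun χ hχ => artin_builtW A hr N hN χ hχ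
  have hNn := hN.normal
  rw [order_prod]
  constructor
  · intro hfix
    have hz : ∀ χ ∈ irrF G, (m χ : ℤ) * A.ord χ = 0 := by
      intro χ hχ
      rw [mem_irrF] at hχ
      by_cases h : ∃ n ∈ N, χ n ≠ χ 1
      · have h1 := A.coe_ord hχ
        rw [(hart χ hχ).1 h] at h1
        have h2 : A.ord χ = 0 := by exact_mod_cast h1
        rw [h2, mul_zero]
      · push Not at h
        have h1 := rep_pair_zero ρ N hfix hχ h
        have h2 := hm χ hχ
        rw [finsum_eq_sum_of_fintype, h1] at h2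
        have hG : (Nat.card G : ℂ) ≠ 0 := by exact_mod_cast Nat.card_pos.ne'
        rcases mul_eq_zero.mp h2.symm with h3 | h3
        · have h4 : m χ = 0 := by exact_mod_cast h3
          rw [h4, Nat.cast_zero, zero_mul]
        · exact absurd h3 hG
    rw [Finset.sum_eq_zero hz]
    rfl
  · intro hmon
    have h0 : 0 ≤ ∑ χ ∈ irrF G, (m χ : ℤ) * A.ord χ := by
      refine Finset.sum_nonneg fun χ hχ => ?_
      rw [mem_irrF] at hχ
      have h1 := A.coe_ord hχ
      have h2 : 0 ≤ A.ord χ := by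
        by_cases h : ∃ n ∈ N, χ n ≠ χ 1
        · rw [(hart χ hχ).1 h] at h1
          have h2 : A.ord χ = 0 := by exact_mod_cast h1
          exact h2.ge
        · push Not at h
          have h3 := (hart χ hχ).2 (hmon χ hχ h)
          rw [← h1] at h3
          exact_mod_cast h3
      exact mul_nonneg (Int.natCast_nonneg _) h2
    exact_mod_cast h0

end Pool.Agent.Helper503_CP
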